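import Mathlib

/-!
Cells, types of visible pairs and the stack law (MP_b66d25_co, upper bound).
-/

open Finset

namespace Pool.Agent.Helper64.RectU

set_option linter.unusedSectionVars false

variable {α : Type*} [DecidableEq α]

/-- cell of `p` at scale `(i, j)` in base `W` -/
def cl (W : ℕ) (X Y : α → ℕ) (i j : ℕ) (p : α) : ℕ × ℕ := (X p / W ^ i, Y p / W ^ j)

/-- increasing visible pair -/
def Edge (X Y : α → ℕ) (V : Finset α) (p q : α) : Prop :=
  X p < X q ∧ Y p < Y q ∧ ∀ r ∈ V, ¬ (X p < X r ∧ X r < X q ∧ Y p < Y r ∧ Y r < Y q)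

/-- type of a pair in base `W` -/
def Typ (W : ℕ) (X Y : α → ℕ) (t : ℕ × ℕ) (p q : α) : Prop :=
  (X p / W ^ t.1 ≠ X q / W ^ t.1 ∧ X p / W ^ (t.1 + 1) = X q / W ^ (t.1 + 1)) ∧
  (Y p / W ^ t.2 ≠ Y q / W ^ t.2 ∧ Y p / W ^ (t.2 + 1) = Y q / W ^ (t.2 + 1))

theorem exists_level {W k a b : ℕ} (hab : a ≠ b) (ha : a < W ^ k) (hb : b < W ^ k) :
    ∃ i < k, a / W ^ i ≠ b / W ^ i ∧ a / W ^ (i + 1) = b / W ^ (i + 1) := by
  classical
  have hex : ∃ i, a / W ^ i = b / W ^ i := ⟨k, by rw [Nat.div_eq_of_lt ha, Nat.div_eq_of_lt hb]⟩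
  have h1 : Nat.find hex ≤ k := Nat.find_le (by rw [Nat.div_eq_of_lt ha, Nat.div_eq_of_lt hb])
  have h2 := Nat.find_spec hex
  have h3 : Nat.find hex ≠ 0 := by
    intro h0
    rw [h0] at h2
    simp at h2
    exact hab h2
  obtain ⟨m, hm⟩ := Nat.exists_eq_succ_of_ne_zero h3
  refine ⟨m, by omega, ?_, ?_⟩
  · exact Nat.find_min hex (by omega)
  · rw [hm] at h2
    exact h2

theorem div_level {W a b i j : ℕ} (h : a / W ^ i = b / W ^ i) (hij : i ≤ j) :
    a / W ^ j = b / W ^ j := by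
  obtain ⟨d, rfl⟩ := Nat.exists_eq_add_of_le hij
  rw [pow_add, ← Nat.div_div_eq_div_mul, ← Nat.div_div_eq_div_mul, h]

theorem lt_of_div_lt {W a b i : ℕ} (h : a / W ^ i < b / W ^ i) : a < b := by
  by_contra hcon
  push Not at hcon
  exact absurd (Nat.div_le_div_right (c := W ^ i) hcon) (not_le.mpr h)

theorem no_dom_out {W : ℕ} {X Y : α → ℕ} {V : Finset α} {p q r : α} {t : ℕ × ℕ}
    (he : Edge X Y V p q) (ht : Typ W X Y t p q) (hr : r ∈ V)
    (hc : cl W X Y t.1 t.2 r = cl W X Y t.1 t.2 p) : ¬ (X p < X r ∧ Y p < Y r) := by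
  rintro ⟨h1, h2⟩
  rw [cl, cl, Prod.mk.injEq] at hc
  apply he.2.2 r hr
  refine ⟨h1, ?_, h2, ?_⟩
  · apply lt_of_div_lt (W := W) (i := t.1)
    rw [hc.1]
    exact lt_of_le_of_ne (Nat.div_le_div_right he.1.le) ht.1.1
  · apply lt_of_div_lt (W := W) (i := t.2)
    rw [hc.2]
    exact lt_of_le_of_ne (Nat.div_le_div_right he.2.1.le) ht.2.1

theorem no_dom_in {W : ℕ} {X Y : α → ℕ} {V : Finset α} {p q r : α} {t : ℕ × ℕ}
    (he : Edge X Y V q p) (ht : Typ W X Y t q p) (hr : r ∈ V)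
    (hc : cl W X Y t.1 t.2 r = cl W X Y t.1 t.2 p) : ¬ (X r < X p ∧ Y r < Y p) := by
  rintro ⟨h1, h2⟩
  rw [cl, cl, Prod.mk.injEq] at hc
  apply he.2.2 r hr
  refine ⟨?_, h1, ?_, h2⟩
  · apply lt_of_div_lt (W := W) (i := t.1)
    rw [hc.1]
    exact lt_of_le_of_ne (Nat.div_le_div_right he.1.le) ht.1.1
  · apply lt_of_div_lt (W := W) (i := t.2)
    rw [hc.2]
    exact lt_of_le_of_ne (Nat.div_le_div_right he.2.1.le) ht.2.1

/-- the types of the edges leaving a point form a chain -/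
theorem out_chain {W : ℕ} {X Y : α → ℕ} {V : Finset α} (hY : Set.InjOn Y V) {p q q' : α}
    {t t' : ℕ × ℕ} (hq : q ∈ V) (hq' : q' ∈ V) (he : Edge X Y V p q) (ht : Typ W X Y t p q)
    (he' : Edge X Y V p q') (ht' : Typ W X Y t' p q') (h : t.1 < t'.1) : t'.2 ≤ t.2 := by
  have h1 : X p / W ^ t'.1 = X q / W ^ t'.1 := div_level ht.1.2 h
  have h2 : X q < X q' := by
    apply lt_of_div_lt (W := W) (i := t'.1)
    rw [← h1]
    exact lt_of_le_of_ne (Nat.div_le_div_right he'.1.le) ht'.1.1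
  have h3 : ¬ Y q < Y q' := fun h3 => he'.2.2 q hq ⟨he.1, h2, he.2.1, h3⟩
  have h4 : Y q' < Y q := by
    rcases Nat.lt_trichotomy (Y q) (Y q') with h | h | h
    · exact absurd h h3
    · exact absurd (congrArg X (hY hq hq' h)) h2.ne
    · exact h
  by_contra hcon
  push Not at hcon
  have h5 : Y p / W ^ t'.2 = Y q / W ^ t'.2 := div_level ht.2.2 hcon
  have h6 : Y q' / W ^ t'.2 ≤ Y q / W ^ t'.2 := Nat.div_le_div_right h4.le
  have h7 : Y p / W ^ t'.2 < Y q' / W ^ t'.2 :=
    lt_of_le_of_ne (Nat.div_le_div_right he'.2.1.le) ht'.2.1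
  omega

/-- A decreasing family of pairs of numbers. -/
theorem card_pairs_le {c : Finset α} (a b : α → ℕ)
    (h : ∀ q ∈ c, ∀ q' ∈ c, a q < a q' → b q' ≤ b q) :
    (c.image (fun q => (a q, b q))).card ≤ (c.image a).card + (c.image b).card := by
  classical
  set S := c.image (fun q => (a q, b q)) with hS
  set S1 := S.filter (fun z => ∀ z' ∈ S, z'.1 = z.1 → z.2 ≤ z'.2) with hS1
  set S2 := S.filter (fun z => ¬ ∀ z' ∈ S, z'.1 = z.1 → z.2 ≤ z'.2) with hS2
  have hsum : S.card = S1.card + S2.card := by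
    rw [hS1, hS2, Finset.card_filter_add_card_filter_not]
  have h1 : S1.card ≤ (c.image a).card := by
    apply Finset.card_le_card_of_injOn (fun z => z.1)
    · intro z hz
      rw [Finset.mem_coe, hS1, Finset.mem_filter] at hz
      obtain ⟨q, hq, rfl⟩ := Finset.mem_image.mp hz.1
      exact Finset.mem_coe.mpr (Finset.mem_image_of_mem a hq)
    · intro z hz z' hz' hzz
      rw [Finset.mem_coe, hS1, Finset.mem_filter] at hz hz'
      have e1 := hz.2 z' hz'.1 hzz.symm
      have e2 := hz'.2 z hz.1 hzz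
      exact Prod.ext hzz (le_antisymm e1 e2)
  have h2 : S2.card ≤ (c.image b).card := by
    apply Finset.card_le_card_of_injOn (fun z => z.2)
    · intro z hz
      rw [Finset.mem_coe, hS2, Finset.mem_filter] at hz
      obtain ⟨q, hq, rfl⟩ := Finset.mem_image.mp hz.1
      exact Finset.mem_coe.mpr (Finset.mem_image_of_mem b hq)
    · have key : ∀ z ∈ S2, ∀ z' ∈ S2, z.2 = z'.2 → z'.1 ≤ z.1 := by
        intro z hz z' hz' hzz
        by_contra hlt
        push Not at hlt
        rw [hS2, Finset.mem_filter] at hz hz'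
        obtain ⟨hzS, hzn⟩ := hz
        push Not at hzn
        obtain ⟨y, hyS, hy1, hy2⟩ := hzn
        obtain ⟨q, hq, rfl⟩ := Finset.mem_image.mp hyS
        obtain ⟨q', hq', rfl⟩ := Finset.mem_image.mp hz'.1
        simp only at hy1 hy2 hlt hzz
        have := h q hq q' hq' (by omega)
        omega
      intro z hz z' hz' hzz
      exact Prod.ext (le_antisymm (key z' hz' z hz hzz.symm) (key z hz z' hz' hzz)) hzz
  omega

/-- Regular data. -/
structure RegD (W k Δ : ℕ) (X Y : α → ℕ) (Q : Finset α) (v : ℕ → ℕ → ℕ) : Prop where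
  lower : ∀ p ∈ Q, ∀ i ≤ k, ∀ j ≤ k, 2 ^ v i j ≤ 2 ^ Δ *
    (Q.filter (fun q => cl W X Y i j q = cl W X Y i j p)).card
  upper : ∀ p ∈ Q, ∀ i ≤ k, ∀ j ≤ k,
    (Q.filter (fun q => cl W X Y i j q = cl W X Y i j p)).card < 2 ^ (v i j + 1)
  mono : ∀ i i' j j', i ≤ i' → j ≤ j' → i' ≤ k → j' ≤ k → v i j ≤ v i' j'

theorem cl_coarse {W : ℕ} {X Y : α → ℕ} {p q : α} {i i' j j' : ℕ} (hi : i ≤ i') (hj : j ≤ j')
    (h : cl W X Y i j q = cl W X Y i j p) : cl W X Y i' j' q = cl W X Y i' j' p := by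
  rw [cl, cl, Prod.mk.injEq] at h ⊢
  exact ⟨div_level h.1 hi, div_level h.2 hj⟩

variable {W k Δ : ℕ} {X Y : α → ℕ} {Q : Finset α} {v : ℕ → ℕ → ℕ}

/-- upper bound for the number of subcells -/
theorem RegD.count_le (h : RegD W k Δ X Y Q v) {i i' j j' : ℕ} (hi : i ≤ i') (hj : j ≤ j')
    (hi' : i' ≤ k) (hj' : j' ≤ k) {p : α} (_hp : p ∈ Q) :
    ((Q.filter (fun q => cl W X Y i' j' q = cl W X Y i' j' p)).image (cl W X Y i j)).card *
      2 ^ v i j ≤ 2 ^ Δ * (Q.filter (fun q => cl W X Y i' j' q = cl W X Y i' j' p)).card := by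
  classical
  set c := Q.filter (fun q => cl W X Y i' j' q = cl W X Y i' j' p) with hc
  have h1 : c.card = ∑ z ∈ c.image (cl W X Y i j), (c.filter (fun q => cl W X Y i j q = z)).card :=
    Finset.card_eq_sum_card_image _ _
  have h2 : ∀ z ∈ c.image (cl W X Y i j), 2 ^ v i j ≤
      2 ^ Δ * (c.filter (fun q => cl W X Y i j q = z)).card := by
    intro z hz
    obtain ⟨q, hq, rfl⟩ := Finset.mem_image.mp hz
    rw [hc, Finset.mem_filter] at hq
    refine (h.lower q hq.1 i (hi.trans hi') j (hj.trans hj')).trans ?_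
    apply Nat.mul_le_mul_left
    apply Finset.card_le_card
    intro x hx
    rw [Finset.mem_filter] at hx
    rw [Finset.mem_filter, hc, Finset.mem_filter]
    exact ⟨⟨hx.1, (cl_coarse hi hj hx.2).trans hq.2⟩, hx.2⟩
  calc (c.image (cl W X Y i j)).card * 2 ^ v i j = ∑ _z ∈ c.image (cl W X Y i j), 2 ^ v i j := by
        rw [Finset.sum_const, smul_eq_mul]
    _ ≤ ∑ z ∈ c.image (cl W X Y i j), 2 ^ Δ * (c.filter (fun q => cl W X Y i j q = z)).card :=
        Finset.sum_le_sum h2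
    _ = 2 ^ Δ * c.card := by rw [← Finset.mul_sum, ← h1]

/-- lower bound for the number of subcells -/
theorem RegD.le_count (h : RegD W k Δ X Y Q v) {i i' j j' : ℕ} (hi : i ≤ i') (hj : j ≤ j')
    (hi' : i' ≤ k) (hj' : j' ≤ k) {p : α} (_hp : p ∈ Q) :
    (Q.filter (fun q => cl W X Y i' j' q = cl W X Y i' j' p)).card ≤
    ((Q.filter (fun q => cl W X Y i' j' q = cl W X Y i' j' p)).image (cl W X Y i j)).card *
      2 ^ (v i j + 1) := by
  classical
  set c := Q.filter (fun q => cl W X Y i' j' q = cl W X Y i' j' p) with hc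
  have h1 : c.card = ∑ z ∈ c.image (cl W X Y i j), (c.filter (fun q => cl W X Y i j q = z)).card :=
    Finset.card_eq_sum_card_image _ _
  rw [h1]
  calc ∑ z ∈ c.image (cl W X Y i j), (c.filter (fun q => cl W X Y i j q = z)).card
      ≤ ∑ _z ∈ c.image (cl W X Y i j), 2 ^ (v i j + 1) := by
        apply Finset.sum_le_sum
        intro z hz
        obtain ⟨q, hq, rfl⟩ := Finset.mem_image.mp hz
        rw [hc, Finset.mem_filter] at hq
        refine le_trans ?_ (h.upper q hq.1 i (hi.trans hi') j (hj.trans hj')).le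
        apply Finset.card_le_card
        intro x hx
        rw [Finset.mem_filter, hc, Finset.mem_filter] at hx
        rw [Finset.mem_filter]
        exact ⟨hx.1.1, hx.2⟩
    _ = _ := by rw [Finset.sum_const, smul_eq_mul]

/-- The stack law. -/
theorem RegD.stack (h : RegD W k Δ X Y Q v) {i i' j j' : ℕ} (hi : i' ≤ i) (hj : j' ≤ j)
    (hik : i ≤ k) (hjk : j ≤ k) (hQ : Q.Nonempty)
    (hanti : ∀ p ∈ Q, ∀ q ∈ Q, cl W X Y i j p = cl W X Y i j q → ¬ (X p < X q ∧ Y p < Y q)) :
    min (v i j') (v i' j) ≤ v i' j' + Δ + 2 := by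
  classical
  obtain ⟨p, hp⟩ := hQ
  set c := Q.filter (fun q => cl W X Y i j q = cl W X Y i j p) with hc
  have hcc : ∀ q ∈ c, X q / W ^ i = X p / W ^ i ∧ Y q / W ^ j = Y p / W ^ j := by
    intro q hq
    rw [hc, Finset.mem_filter, cl, cl, Prod.mk.injEq] at hq
    exact hq.2
  have hpc : p ∈ c := by rw [hc, Finset.mem_filter]; exact ⟨hp, rfl⟩
  have hcpos : 0 < c.card := Finset.card_pos.mpr ⟨p, hpc⟩
  -- the three counts
  have e1 := h.count_le (i := i) (j := j') (i' := i) (j' := j) le_rfl hj hik hjk hp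
  have e2 := h.count_le (i := i') (j := j) (i' := i) (j' := j) hi le_rfl hik hjk hp
  have e3 := h.le_count (i := i') (j := j') (i' := i) (j' := j) hi hj hik hjk hp
  rw [← hc] at e1 e2 e3
  have f1 : (c.image (fun q => Y q / W ^ j')).card ≤ (c.image (cl W X Y i j')).card := by
    have : c.image (fun q => Y q / W ^ j') = (c.image (cl W X Y i j')).image Prod.snd := by
      rw [Finset.image_image]
      rfl
    rw [this]
    exact Finset.card_image_le
  have f2 : (c.image (fun q => X q / W ^ i')).card ≤ (c.image (cl W X Y i' j)).card := by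
    have : c.image (fun q => X q / W ^ i') = (c.image (cl W X Y i' j)).image Prod.fst := by
      rw [Finset.image_image]
      rfl
    rw [this]
    exact Finset.card_image_le
  have f3 : (c.image (cl W X Y i' j')).card ≤
      (c.image (fun q => X q / W ^ i')).card + (c.image (fun q => Y q / W ^ j')).card := by
    apply card_pairs_le
    intro q hq q' hq' hlt
    have hX := lt_of_div_lt hlt
    have hq1 := Finset.mem_filter.mp (hc ▸ hq)
    have hq2 := Finset.mem_filter.mp (hc ▸ hq')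
    have := hanti q hq1.1 q' hq2.1 (hq1.2.trans hq2.2.symm)
    apply Nat.div_le_div_right
    by_contra hcon
    push Not at hcon
    exact this ⟨hX, hcon⟩
  set m := min (v i j') (v i' j) with hm
  have g1 : (c.image (fun q => Y q / W ^ j')).card * 2 ^ m ≤ 2 ^ Δ * c.card :=
    le_trans (Nat.mul_le_mul f1 (Nat.pow_le_pow_right (by norm_num) (min_le_left _ _))) e1
  have g2 : (c.image (fun q => X q / W ^ i')).card * 2 ^ m ≤ 2 ^ Δ * c.card :=
    le_trans (Nat.mul_le_mul f2 (Nat.pow_le_pow_right (by norm_num) (min_le_right _ _))) e2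
  have g3 : (c.image (cl W X Y i' j')).card * 2 ^ m ≤ 2 * (2 ^ Δ * c.card) := by
    calc (c.image (cl W X Y i' j')).card * 2 ^ m ≤
        ((c.image (fun q => X q / W ^ i')).card + (c.image (fun q => Y q / W ^ j')).card) * 2 ^ m :=
          Nat.mul_le_mul_right _ f3
      _ ≤ 2 * (2 ^ Δ * c.card) := by rw [add_mul]; omega
  have g4 : c.card * 2 ^ m ≤ c.card * 2 ^ (v i' j' + Δ + 2) := by
    calc c.card * 2 ^ m ≤ (c.image (cl W X Y i' j')).card * 2 ^ (v i' j' + 1) * 2 ^ m :=
          Nat.mul_le_mul_right _ e3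
      _ = (c.image (cl W X Y i' j')).card * 2 ^ m * 2 ^ (v i' j' + 1) := by ring
      _ ≤ 2 * (2 ^ Δ * c.card) * 2 ^ (v i' j' + 1) := Nat.mul_le_mul_right _ g3
      _ = c.card * 2 ^ (v i' j' + Δ + 2) := by
          rw [pow_add, pow_add, pow_add]; ring
  have g5 := Nat.le_of_mul_le_mul_left g4 hcpos
  exact (Nat.pow_le_pow_iff_right (by norm_num)).mp g5

theorem card_image_div_le {W : ℕ} (hW : 0 < W) {c : Finset α} (Z : α → ℕ) {j j' : ℕ} (hj : j' ≤ j)
    {z : ℕ} (h : ∀ q ∈ c, Z q / W ^ j = z) :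
    (c.image (fun q => Z q / W ^ j')).card ≤ W ^ (j - j') := by
  have hsub : c.image (fun q => Z q / W ^ j') ⊆ Finset.Ico (z * W ^ (j - j'))
      (z * W ^ (j - j') + W ^ (j - j')) := by
    intro y hy
    obtain ⟨q, hq, rfl⟩ := Finset.mem_image.mp hy
    have h1 := h q hq
    obtain ⟨d, rfl⟩ := Nat.exists_eq_add_of_le hj
    have h3 : j' + d - j' = d := by omega
    rw [h3]
    rw [pow_add, ← Nat.div_div_eq_div_mul] at h1
    have hWd : 0 < W ^ d := pow_pos hW d
    rw [Finset.mem_Ico]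
    have h4 : z * W ^ d ≤ Z q / W ^ j' := by
      rw [← h1]; exact Nat.div_mul_le_self _ _
    have h5 : Z q / W ^ j' < (z + 1) * W ^ d := by
      rw [← h1]
      exact (Nat.div_lt_iff_lt_mul hWd).mp (Nat.lt_succ_self _)
    rw [add_mul, one_mul] at h5
    exact ⟨h4, h5⟩
  refine (Finset.card_le_card hsub).trans ?_
  rw [Nat.card_Ico]
  omega

/-- Up-variation of one step. -/
theorem RegD.up {w : ℕ} (h : RegD (2 ^ w) k Δ X Y Q v) {i j j' : ℕ} (hj : j' ≤ j)
    (hik : i ≤ k) (hjk : j ≤ k) (hQ : Q.Nonempty) :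
    v i j ≤ Δ + w * (j - j') + v i j' + 1 := by
  classical
  obtain ⟨p, hp⟩ := hQ
  set c := Q.filter (fun q => cl (2 ^ w) X Y i j q = cl (2 ^ w) X Y i j p) with hc
  have hcc : ∀ q ∈ c, X q / (2 ^ w) ^ i = X p / (2 ^ w) ^ i ∧
      Y q / (2 ^ w) ^ j = Y p / (2 ^ w) ^ j := by
    intro q hq
    rw [hc, Finset.mem_filter, cl, cl, Prod.mk.injEq] at hq
    exact hq.2
  have e1 := h.le_count (i := i) (j := j') (i' := i) (j' := j) le_rfl hj hik hjk hp
  have e2 := h.lower p hp i hik j hjk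
  rw [← hc] at e1 e2
  have f1 : (c.image (cl (2 ^ w) X Y i j')).card ≤ (2 ^ w) ^ (j - j') := by
    have h1 : (c.image (cl (2 ^ w) X Y i j')).card ≤
        (c.image (fun q => Y q / (2 ^ w) ^ j')).card := by
      apply Finset.card_le_card_of_injOn (fun z => z.2)
      · intro z hz
        obtain ⟨q, hq, rfl⟩ := Finset.mem_image.mp (Finset.mem_coe.mp hz)
        exact Finset.mem_coe.mpr (Finset.mem_image.mpr ⟨q, hq, rfl⟩)
      · intro z hz z' hz' hzz
        obtain ⟨q, hq, rfl⟩ := Finset.mem_image.mp (Finset.mem_coe.mp hz)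
        obtain ⟨q', hq', rfl⟩ := Finset.mem_image.mp (Finset.mem_coe.mp hz')
        exact Prod.ext ((hcc q hq).1.trans (hcc q' hq').1.symm) hzz
    exact h1.trans (card_image_div_le (by positivity) Y hj (fun q hq => (hcc q hq).2))
  have g1 : 2 ^ v i j ≤ 2 ^ (Δ + w * (j - j') + v i j' + 1) := by
    calc 2 ^ v i j ≤ 2 ^ Δ * c.card := e2
      _ ≤ 2 ^ Δ * ((2 ^ w) ^ (j - j') * 2 ^ (v i j' + 1)) :=
          Nat.mul_le_mul_left _ (e1.trans (Nat.mul_le_mul_right _ f1))
      _ = 2 ^ (Δ + w * (j - j') + v i j' + 1) := by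
          rw [← pow_mul, ← pow_add, ← pow_add]
          congr 1
          ring
  exact (Nat.pow_le_pow_iff_right (by norm_num)).mp g1

/-- Number of cells of scale `(i, j)` in a window. -/
theorem card_window_le {W : ℕ} (hW : 0 < W) {c : Finset α} {i j : ℕ} {z : ℕ × ℕ}
    (h : ∀ q ∈ c, cl W X Y (i + 1) (j + 1) q = z) :
    (c.image (cl W X Y i j)).card ≤ W ^ 2 := by
  classical
  have hsub : c.image (cl W X Y i j) ⊆
      (c.image (fun q => X q / W ^ i)) ×ˢ (c.image (fun q => Y q / W ^ j)) := by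
    intro y hy
    obtain ⟨q, hq, rfl⟩ := Finset.mem_image.mp hy
    exact Finset.mem_product.mpr ⟨Finset.mem_image.mpr ⟨q, hq, rfl⟩,
      Finset.mem_image.mpr ⟨q, hq, rfl⟩⟩
  have h1 : (c.image (fun q => X q / W ^ i)).card ≤ W := by
    have := card_image_div_le (W := W) hW X (j := i + 1) (j' := i) (Nat.le_succ i) (z := z.1)
      (fun q hq => by rw [← h q hq]; rfl)
    simpa using this
  have h2 : (c.image (fun q => Y q / W ^ j)).card ≤ W := by
    have := card_image_div_le (W := W) hW Y (j := j + 1) (j' := j) (Nat.le_succ j) (z := z.2)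
      (fun q hq => by rw [← h q hq]; rfl)
    simpa using this
  calc (c.image (cl W X Y i j)).card ≤ _ := Finset.card_le_card hsub
    _ = (c.image (fun q => X q / W ^ i)).card * (c.image (fun q => Y q / W ^ j)).card :=
        Finset.card_product _ _
    _ ≤ W * W := Nat.mul_le_mul h1 h2
    _ = W ^ 2 := by ring

/-- Number of classes of a second scale `(i'', j'')` in a cell of scale `(i, j)`; `(i', j')` is the
common refinement. -/
theorem RegD.seen_le (h : RegD W k Δ X Y Q v) {i j i'' j'' : ℕ} (hik : i ≤ k) (hjk : j ≤ k)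
    {m : ℕ} (hm : v i j ≤ v (min i i'') (min j j'') + m)
    {p : α} (hp : p ∈ Q) :
    ((Q.filter (fun q => cl W X Y i j q = cl W X Y i j p)).image (cl W X Y i'' j'')).card ≤
      2 ^ (m + Δ + 1) := by
  classical
  set c := Q.filter (fun q => cl W X Y i j q = cl W X Y i j p) with hc
  set i' := min i i'' with hi'
  set j' := min j j'' with hj'
  have hcc : ∀ q ∈ c, cl W X Y i j q = cl W X Y i j p := by
    intro q hq
    rw [hc, Finset.mem_filter] at hq
    exact hq.2
  -- cl i'' j'' is determined by cl i' j'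
  have h0 : (c.image (cl W X Y i'' j'')).card ≤ (c.image (cl W X Y i' j')).card := by
    have : c.image (cl W X Y i'' j'') = (c.image (cl W X Y i' j')).image
        (fun z => (z.1 / W ^ (i'' - i'), z.2 / W ^ (j'' - j'))) := by
      rw [Finset.image_image]
      apply Finset.image_congr
      intro q _
      simp only [cl, Function.comp]
      have e1 : i'' = i' + (i'' - i') := by omega
      have e2 : j'' = j' + (j'' - j') := by omega
      rw [Nat.div_div_eq_div_mul, Nat.div_div_eq_div_mul, ← pow_add, ← pow_add, ← e1, ← e2]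
    rw [this]
    exact Finset.card_image_le
  have e1 := h.count_le (i := i') (j := j') (i' := i) (j' := j) (min_le_left _ _) (min_le_left _ _)
    hik hjk hp
  have e2 := h.upper p hp i hik j hjk
  rw [← hc] at e1 e2
  have g1 : (c.image (cl W X Y i' j')).card * 2 ^ v i' j' ≤ 2 ^ (m + Δ + 1) * 2 ^ v i' j' := by
    calc (c.image (cl W X Y i' j')).card * 2 ^ v i' j' ≤ 2 ^ Δ * c.card := e1
      _ ≤ 2 ^ Δ * 2 ^ (v i j + 1) := Nat.mul_le_mul_left _ e2.le
      _ ≤ 2 ^ Δ * 2 ^ (v i' j' + m + 1) :=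
          Nat.mul_le_mul_left _ (Nat.pow_le_pow_right (by norm_num) (by omega))
      _ = 2 ^ (m + Δ + 1) * 2 ^ v i' j' := by
          rw [← pow_add, ← pow_add]
          congr 1
          ring
  exact h0.trans (Nat.le_of_mul_le_mul_right g1 (by positivity))

end Pool.Agent.Helper64.RectU
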