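import Mathlib

/-!
Cutting a profile at its deep valleys, for all dyadic depths at once (MP_b66d25_co, upper bound).
-/

open Finset

namespace Pool.Agent.Helper64.RectU

theorem geom_le (c x : ℕ) : ∀ J : ℕ,
    (∑ j ∈ range J, (if 2 ^ j * c < x then 2 ^ j * c else 0)) ≤ 2 ^ J * c ∧
    (∑ j ∈ range J, (if 2 ^ j * c < x then 2 ^ j * c else 0)) ≤ 2 * x := by
  intro J
  induction J with
  | zero => simp
  | succ J ih =>
    rw [Finset.sum_range_succ]
    obtain ⟨h1, h2⟩ := ih
    have h3 : 2 ^ (J + 1) * c = 2 ^ J * c + 2 ^ J * c := by ring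
    rw [h3]
    by_cases h : 2 ^ J * c < x
    · rw [if_pos h]
      constructor <;> omega
    · rw [if_neg h]
      constructor <;> omega

theorem profile (c J : ℕ) (s val : ℕ → ℕ) (h1 : ∀ h, val h ≤ s h)
    (h2 : ∀ h, val h ≤ s (h + 1)) : ∀ n a : ℕ, ∃ Cut : ℕ → Finset ℕ,
      (∀ j, Cut j ⊆ Finset.Ico a (a + n)) ∧
      (∀ j r h g, a ≤ r → r ≤ h → h < g → g ≤ a + n → (∀ x ∈ Cut j, ¬ (r ≤ x ∧ x < g)) →
        min (s r) (s g) ≤ val h + 2 ^ j * c) ∧
      (∑ j ∈ range J, 2 ^ j * c * (Cut j).card) + 2 * (Finset.Icc a (a + n)).sup s ≤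
        2 * (∑ h ∈ Finset.Ico a (a + n), (s (h + 1) - val h)) + 2 * s a := by
  intro n
  induction n using Nat.strong_induction_on with
  | _ n ih =>
    intro a
    rcases Nat.eq_zero_or_pos n with rfl | hn
    · refine ⟨fun _ => ∅, fun _ => Finset.empty_subset _, ?_, ?_⟩
      · intro j r h g h1 h2 h3 h4
        omega
      · simp
    · obtain ⟨m, hm, hmin⟩ := Finset.exists_min_image (Finset.Ico a (a + n)) val
        ⟨a, Finset.mem_Ico.mpr ⟨le_rfl, by omega⟩⟩
      rw [Finset.mem_Ico] at hm
      obtain ⟨CL, hL1, hL2, hL3⟩ := ih (m - a) (by omega) a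
      obtain ⟨CR, hR1, hR2, hR3⟩ := ih (a + n - (m + 1)) (by omega) (m + 1)
      have e1 : a + (m - a) = m := by omega
      have e2 : m + 1 + (a + n - (m + 1)) = a + n := by omega
      rw [e1] at hL1 hL2 hL3
      rw [e2] at hR1 hR2 hR3
      set ML := (Finset.Icc a m).sup s with hML
      set MR := (Finset.Icc (m + 1) (a + n)).sup s with hMR
      have hM : (Finset.Icc a (a + n)).sup s = max ML MR := by
        have : Finset.Icc a (a + n) = Finset.Icc a m ∪ Finset.Icc (m + 1) (a + n) := by
          ext x
          simp only [Finset.mem_union, Finset.mem_Icc]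
          omega
        rw [this, Finset.sup_union]
      have hmL : s m ≤ ML := Finset.le_sup (f := s) (Finset.mem_Icc.mpr ⟨hm.1, le_rfl⟩)
      have hmR : s (m + 1) ≤ MR :=
        Finset.le_sup (f := s) (Finset.mem_Icc.mpr ⟨le_rfl, by omega⟩)
      have hv1 := h1 m
      have hv2 := h2 m
      set cutm : ℕ → Finset ℕ := fun j => if 2 ^ j * c < min ML MR - val m then {m} else ∅
        with hcutm
      refine ⟨fun j => CL j ∪ CR j ∪ cutm j, ?_, ?_, ?_⟩
      · intro j x hx
        rw [Finset.mem_union, Finset.mem_union] at hx
        rw [Finset.mem_Ico]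
        rcases hx with (hx | hx) | hx
        · have := Finset.mem_Ico.mp (hL1 j hx); omega
        · have := Finset.mem_Ico.mp (hR1 j hx); omega
        · rw [hcutm] at hx
          by_cases hh : 2 ^ j * c < min ML MR - val m
          · simp only [if_pos hh, Finset.mem_singleton] at hx; omega
          · simp only [if_neg hh] at hx; exact absurd hx (Finset.notMem_empty x)
      · intro j r h g hr hrh hhg hg hcut
        by_cases hgm : g ≤ m
        · exact hL2 j r h g hr hrh hhg hgm (fun x hx => hcut x (Finset.mem_union_left _
            (Finset.mem_union_left _ hx)))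
        · by_cases hrm : m + 1 ≤ r
          · exact hR2 j r h g hrm hrh hhg hg (fun x hx => hcut x (Finset.mem_union_left _
              (Finset.mem_union_right _ hx)))
          · have hnc : ¬ 2 ^ j * c < min ML MR - val m := by
              intro hlt
              apply hcut m
              · apply Finset.mem_union_right
                rw [hcutm]
                simp only [if_pos hlt, Finset.mem_singleton]
              · omega
            have hsr : s r ≤ ML := Finset.le_sup (f := s) (Finset.mem_Icc.mpr ⟨hr, by omega⟩)
            have hsg : s g ≤ MR := Finset.le_sup (f := s) (Finset.mem_Icc.mpr ⟨by omega, hg⟩)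
            have hvh : val m ≤ val h := hmin h (Finset.mem_Ico.mpr ⟨by omega, by omega⟩)
            omega
      · have hsumU : ∑ h ∈ Finset.Ico a (a + n), (s (h + 1) - val h) =
            (∑ h ∈ Finset.Ico a m, (s (h + 1) - val h)) + (s (m + 1) - val m) +
            ∑ h ∈ Finset.Ico (m + 1) (a + n), (s (h + 1) - val h) := by
          rw [← Finset.sum_Ico_succ_top hm.1]
          rw [Finset.sum_Ico_consecutive _ (by omega) (by omega)]
        have hcard : ∀ j, 2 ^ j * c * (CL j ∪ CR j ∪ cutm j).card ≤
            2 ^ j * c * (CL j).card + 2 ^ j * c * (CR j).card +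
            (if 2 ^ j * c < min ML MR - val m then 2 ^ j * c else 0) := by
          intro j
          have i1 : (CL j ∪ CR j ∪ cutm j).card ≤ (CL j).card + (CR j).card + (cutm j).card :=
            (Finset.card_union_le _ _).trans
              (Nat.add_le_add_right (Finset.card_union_le _ _) _)
          have i2 : 2 ^ j * c * (cutm j).card =
              (if 2 ^ j * c < min ML MR - val m then 2 ^ j * c else 0) := by
            rw [hcutm]
            by_cases hh : 2 ^ j * c < min ML MR - val m
            · simp only [if_pos hh, Finset.card_singleton, mul_one]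
            · simp only [if_neg hh, Finset.card_empty, mul_zero]
          calc 2 ^ j * c * (CL j ∪ CR j ∪ cutm j).card
              ≤ 2 ^ j * c * ((CL j).card + (CR j).card + (cutm j).card) :=
                Nat.mul_le_mul_left _ i1
            _ = 2 ^ j * c * (CL j).card + 2 ^ j * c * (CR j).card + 2 ^ j * c * (cutm j).card := by
                ring
            _ = _ := by rw [i2]
        have hsum := Finset.sum_le_sum (fun j (_ : j ∈ range J) => hcard j)
        rw [Finset.sum_add_distrib, Finset.sum_add_distrib] at hsum
        have hg := (geom_le c (min ML MR - val m) J).2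
        rw [hM, hsumU]
        simp only
        omega

end Pool.Agent.Helper64.RectU
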