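import Mathlib

/-!
Sampling of classes (MP_b66d25_co, upper bound).
-/

open Finset

namespace Pool.Agent.Helper64.RectU

theorem card_fix_one {ι : Type*} [Fintype ι] [DecidableEq ι] (M : ℕ) [NeZero M] (a : ι) :
    M * (univ.filter (fun f : ι → Fin M => f a = 0)).card = M ^ Fintype.card ι := by
  have h : (univ.filter (fun f : ι → Fin M => f a = 0)) =
      Fintype.piFinset (fun i => if i = a then ({0} : Finset (Fin M)) else univ) := by
    ext f
    simp only [mem_filter, mem_univ, true_and, Fintype.mem_piFinset]
    constructor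
    · intro h i
      by_cases hi : i = a
      · simp [hi, h]
      · simp [hi]
    · intro h
      simpa using h a
  rw [h, Fintype.card_piFinset, ← Finset.mul_prod_erase univ _ (mem_univ a)]
  simp only [if_true, card_singleton, one_mul]
  have h2 : ∏ x ∈ univ.erase a, (if x = a then ({0} : Finset (Fin M)) else univ).card =
      ∏ _x ∈ univ.erase a, M := by
    apply Finset.prod_congr rfl
    intro x hx
    rw [if_neg (Finset.ne_of_mem_erase hx)]
    simp
  rw [h2, Finset.prod_const, Finset.card_erase_of_mem (mem_univ a), Finset.card_univ, ← pow_succ']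
  congr 1
  have : 0 < Fintype.card ι := Fintype.card_pos_iff.mpr ⟨a⟩
  omega

theorem card_fix_two {ι : Type*} [Fintype ι] [DecidableEq ι] (M : ℕ) [NeZero M] {a b : ι}
    (hab : a ≠ b) :
    M ^ 2 * (univ.filter (fun f : ι → Fin M => f a = 0 ∧ f b = 0)).card =
      M ^ Fintype.card ι := by
  have h : (univ.filter (fun f : ι → Fin M => f a = 0 ∧ f b = 0)) =
      Fintype.piFinset (fun i => if i = a ∨ i = b then ({0} : Finset (Fin M)) else univ) := by
    ext f
    simp only [mem_filter, mem_univ, true_and, Fintype.mem_piFinset]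
    constructor
    · intro h i
      by_cases hi : i = a ∨ i = b
      · rcases hi with hi | hi
        · simp [hi, h.1]
        · simp [hi, h.2]
      · simp [hi]
    · intro h
      refine ⟨by simpa using h a, by simpa using h b⟩
  have hb : b ∈ univ.erase a := Finset.mem_erase.mpr ⟨hab.symm, mem_univ b⟩
  rw [h, Fintype.card_piFinset, ← Finset.mul_prod_erase univ _ (mem_univ a),
    ← Finset.mul_prod_erase _ _ hb]
  simp only [true_or, or_true, if_true, card_singleton, one_mul]
  have h2 : ∏ x ∈ (univ.erase a).erase b,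
      (if x = a ∨ x = b then ({0} : Finset (Fin M)) else univ).card =
      ∏ _x ∈ (univ.erase a).erase b, M := by
    apply Finset.prod_congr rfl
    intro x hx
    have h1 := Finset.ne_of_mem_erase hx
    have h2 := Finset.ne_of_mem_erase (Finset.mem_of_mem_erase hx)
    rw [if_neg (by tauto)]
    simp
  rw [h2, Finset.prod_const, Finset.card_erase_of_mem hb, Finset.card_erase_of_mem (mem_univ a),
    Finset.card_univ, ← pow_add]
  congr 1
  have : 1 < Fintype.card ι := Fintype.one_lt_card_iff.mpr ⟨a, b, hab⟩
  omega

/-- Sampling classes with probability `1 / (2 D)`. -/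
theorem sampling {α β : Type*} [DecidableEq α] [DecidableEq β] (Q : Finset α) (cls : α → β)
    (N : α → Finset β) (D : ℕ) (hD : 0 < D) (hN : ∀ p ∈ Q, (N p).card ≤ D)
    (hc : ∀ p ∈ Q, cls p ∉ N p) :
    ∃ S ⊆ Q, Q.card ≤ 4 * D * S.card ∧ ∀ p ∈ S, ∀ q ∈ S, cls q ∉ N p := by
  classical
  set B : Finset β := Q.image cls ∪ Q.biUnion N with hB
  set M : ℕ := 2 * D with hM
  have : NeZero M := ⟨by omega⟩
  have hcB : ∀ p ∈ Q, cls p ∈ B := fun p hp =>
    Finset.mem_union_left _ (Finset.mem_image_of_mem _ hp)
  have hNB : ∀ p ∈ Q, ∀ c ∈ N p, c ∈ B := fun p hp c hcc =>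
    Finset.mem_union_right _ (Finset.mem_biUnion.mpr ⟨p, hp, hcc⟩)
  -- the good set of a colouring
  set G : (B → Fin M) → Finset α := fun f => Q.filter (fun p =>
    (∀ h : cls p ∈ B, f ⟨cls p, h⟩ = 0) ∧ ∀ c, ∀ h : c ∈ B, c ∈ N p → f ⟨c, h⟩ ≠ 0) with hG
  set T : ℕ := M ^ Fintype.card B with hT
  have hTpos : 0 < T := pow_pos (by omega) _
  -- for each point, the number of good colourings
  have key : ∀ p ∈ Q, T ≤ 4 * D * (univ.filter (fun f : B → Fin M => p ∈ G f)).card := by
    intro p hp
    set a : B := ⟨cls p, hcB p hp⟩ with ha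
    set A1 := univ.filter (fun f : B → Fin M => f a = 0) with hA1
    set bad : β → Finset (B → Fin M) := fun c => if h : c ∈ B then
      univ.filter (fun f : B → Fin M => f a = 0 ∧ f ⟨c, h⟩ = 0) else ∅ with hbad
    have hsub : A1 \ (N p).biUnion bad ⊆ univ.filter (fun f : B → Fin M => p ∈ G f) := by
      intro f hf
      rw [Finset.mem_sdiff, hA1, Finset.mem_filter] at hf
      obtain ⟨⟨-, hf1⟩, hf2⟩ := hf
      rw [Finset.mem_filter]
      refine ⟨mem_univ _, ?_⟩
      rw [hG]
      simp only [Finset.mem_filter]
      refine ⟨hp, fun h => hf1, fun c h hcN h0 => ?_⟩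
      apply hf2
      rw [Finset.mem_biUnion]
      refine ⟨c, hcN, ?_⟩
      rw [hbad]
      simp only [dif_pos h, Finset.mem_filter, mem_univ, true_and]
      exact ⟨hf1, h0⟩
    have h1 : M * A1.card = T := card_fix_one M a
    have h2 : ∀ c ∈ N p, M ^ 2 * (bad c).card ≤ T := by
      intro c hcN
      rw [hbad]
      by_cases h : c ∈ B
      · simp only [dif_pos h]
        have hne : a ≠ ⟨c, h⟩ := by
          intro he
          have : cls p = c := congrArg Subtype.val he
          exact hc p hp (this ▸ hcN)
        exact (card_fix_two M hne).le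
      · simp only [dif_neg h, Finset.card_empty, mul_zero]
        exact Nat.zero_le _
    have h3 : M ^ 2 * ((N p).biUnion bad).card ≤ D * T := by
      calc M ^ 2 * ((N p).biUnion bad).card ≤ M ^ 2 * ∑ c ∈ N p, (bad c).card :=
            Nat.mul_le_mul_left _ Finset.card_biUnion_le
        _ = ∑ c ∈ N p, M ^ 2 * (bad c).card := by rw [Finset.mul_sum]
        _ ≤ ∑ _c ∈ N p, T := Finset.sum_le_sum h2
        _ = (N p).card * T := by rw [Finset.sum_const, smul_eq_mul]
        _ ≤ D * T := Nat.mul_le_mul_right _ (hN p hp)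
    have h4 : A1.card ≤ (univ.filter (fun f : B → Fin M => p ∈ G f)).card +
        ((N p).biUnion bad).card := by
      have := Finset.card_le_card hsub
      have h5 : A1.card ≤ (A1 \ (N p).biUnion bad).card + ((N p).biUnion bad).card := by
        rw [← Finset.card_union_of_disjoint Finset.sdiff_disjoint]
        apply Finset.card_le_card
        intro f hf
        by_cases h : f ∈ (N p).biUnion bad
        · exact Finset.mem_union_right _ h
        · exact Finset.mem_union_left _ (Finset.mem_sdiff.mpr ⟨hf, h⟩)
      omega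
    -- arithmetic
    set g := (univ.filter (fun f : B → Fin M => p ∈ G f)).card with hg
    set b := ((N p).biUnion bad).card with hb
    have h6 : M ^ 2 * A1.card ≤ M ^ 2 * g + M ^ 2 * b := by
      rw [← Nat.mul_add]; exact Nat.mul_le_mul_left _ h4
    have h7 : M ^ 2 * A1.card = M * T := by rw [← h1]; ring
    have h8 : M * T ≤ M ^ 2 * g + D * T := by
      rw [← h7]; omega
    have h9 : D * T ≤ M ^ 2 * g := by
      have : M * T = D * T + D * T := by rw [hM]; ring
      omega
    have h10 : M ^ 2 * g = D * (4 * D * g) := by rw [hM]; ring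
    rw [h10] at h9
    exact Nat.le_of_mul_le_mul_left h9 hD
  -- double counting
  have hsum : Q.card * T ≤ 4 * D * ∑ f : B → Fin M, (G f).card := by
    have h1 : ∑ f : B → Fin M, (G f).card =
        ∑ p ∈ Q, (univ.filter (fun f : B → Fin M => p ∈ G f)).card := by
      have h2 : ∀ f : B → Fin M, (G f).card = (Q.filter (fun p => p ∈ G f)).card := by
        intro f
        congr 1
        ext p
        constructor
        · intro h
          refine Finset.mem_filter.mpr ⟨?_, h⟩
          rw [hG] at h
          exact (Finset.mem_filter.mp h).1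
        · exact fun h => (Finset.mem_filter.mp h).2
      simp_rw [h2]
      exact (Finset.sum_card_bipartiteAbove_eq_sum_card_bipartiteBelow
        (fun (p : α) (f : B → Fin M) => p ∈ G f)).symm
    rw [h1, Finset.mul_sum]
    calc Q.card * T = ∑ _p ∈ Q, T := by rw [Finset.sum_const, smul_eq_mul]
      _ ≤ _ := Finset.sum_le_sum key
  by_contra hcon
  push Not at hcon
  have hall : ∀ f : B → Fin M, 4 * D * (G f).card < Q.card := by
    intro f
    by_contra hle
    push Not at hle
    obtain ⟨p, hp, q, hq, hpq⟩ := hcon (G f) (by rw [hG]; exact Finset.filter_subset _ _) hle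
    rw [hG] at hp hq
    simp only [Finset.mem_filter] at hp hq
    exact hp.2.2 (cls q) (hNB p hp.1 _ hpq) hpq (hq.2.1 (hcB q hq.1))
  have hlt : 4 * D * ∑ f : B → Fin M, (G f).card < Q.card * T := by
    rw [Finset.mul_sum]
    calc ∑ f : B → Fin M, 4 * D * (G f).card < ∑ _f : B → Fin M, Q.card := by
          apply Finset.sum_lt_sum_of_nonempty
          · exact ⟨fun _ => 0, mem_univ _⟩
          · exact fun f _ => hall f
      _ = Q.card * T := by
          rw [Finset.sum_const, smul_eq_mul, Finset.card_univ, Fintype.card_fun, Fintype.card_fin,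
            mul_comm]
  omega

end Pool.Agent.Helper64.RectU
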