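import Mathlib
import Pool.Agent.Helper64.RectU.Samp
import Pool.Agent.Helper64.RectU.Core
import Pool.Agent.Helper64.RectU.Profile

/-!
Removing the edges of one group of types, and of all groups (MP_b66d25_co, upper bound).
-/

open Finset

namespace Pool.Agent.Helper64.RectU

set_option linter.unusedSectionVars false

/-- Enumeration of a chain of types. -/
theorem enum_chain (k : ℕ) : ∀ (n : ℕ) (T : Finset (ℕ × ℕ)), T.card = n →
    (∀ t ∈ T, t.1 ≤ k ∧ t.2 ≤ k) → (∀ t ∈ T, ∀ t' ∈ T, t.1 < t'.1 → t'.2 ≤ t.2) →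
    ∃ I J : ℕ → ℕ, (∀ g g', g ≤ g' → I g' ≤ I g) ∧ (∀ g g', g ≤ g' → J g ≤ J g') ∧
      (∀ g, I g ≤ k ∧ J g ≤ k) ∧ (∀ t ∈ T, ∃ g < n, t = (I g, J g)) ∧
      (∀ g < n, (I g, J g) ∈ T) := by
  intro n
  induction n with
  | zero =>
    intro T hT hk hch
    refine ⟨fun _ => 0, fun _ => 0, fun _ _ _ => le_rfl, fun _ _ _ => le_rfl,
      fun _ => ⟨Nat.zero_le _, Nat.zero_le _⟩, ?_, fun g hg => absurd hg (Nat.not_lt_zero g)⟩
    intro t ht
    rw [Finset.card_eq_zero] at hT
    rw [hT] at ht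
    exact absurd ht (Finset.notMem_empty t)
  | succ n ih =>
    intro T hT hk hch
    have hne : T.Nonempty := Finset.card_pos.mp (by omega)
    obtain ⟨m, hm, hmax⟩ := Finset.exists_max_image T (fun t => t.2 + (k - t.1)) hne
    have hrel : ∀ t ∈ T, m.1 ≤ t.1 ∧ t.2 ≤ m.2 := by
      intro t ht
      have h1 := hmax t ht
      have h2 := hch t ht m hm
      have h3 := hch m hm t ht
      have h4 := hk t ht
      have h5 := hk m hm
      constructor
      · by_contra hlt
        push Not at hlt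
        have := h2 hlt
        omega
      · by_contra hlt
        push Not at hlt
        rcases Nat.lt_trichotomy t.1 m.1 with h | h | h
        · have := h2 h
          omega
        · omega
        · have := h3 h
          omega
    obtain ⟨I', J', hI, hJ, hIJ, hin, hmem⟩ := ih (T.erase m)
      (by rw [Finset.card_erase_of_mem hm]; omega)
      (fun t ht => hk t (Finset.mem_of_mem_erase ht))
      (fun t ht t' ht' => hch t (Finset.mem_of_mem_erase ht) t' (Finset.mem_of_mem_erase ht'))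
    refine ⟨fun g => if g < n then I' g else m.1, fun g => if g < n then J' g else m.2,
      ?_, ?_, ?_, ?_, ?_⟩
    · intro g g' hgg
      by_cases h' : g' < n
      · simp only [if_pos h', if_pos (lt_of_le_of_lt hgg h')]
        exact hI g g' hgg
      · by_cases h : g < n
        · simp only [if_neg h', if_pos h]
          exact (hrel _ (Finset.mem_of_mem_erase (hmem g h))).1
        · simp only [if_neg h', if_neg h]
          exact le_rfl
    · intro g g' hgg
      by_cases h' : g' < n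
      · simp only [if_pos h', if_pos (lt_of_le_of_lt hgg h')]
        exact hJ g g' hgg
      · by_cases h : g < n
        · simp only [if_neg h', if_pos h]
          exact (hrel _ (Finset.mem_of_mem_erase (hmem g h))).2
        · simp only [if_neg h', if_neg h]
          exact le_rfl
    · intro g
      by_cases h : g < n
      · simp only [if_pos h]
        exact hIJ g
      · simp only [if_neg h]
        exact hk m hm
    · intro t ht
      by_cases htm : t = m
      · refine ⟨n, Nat.lt_succ_self n, ?_⟩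
        simp only [lt_irrefl, if_false]
        rw [htm]
      · obtain ⟨g, hg, he⟩ := hin t (Finset.mem_erase.mpr ⟨htm, ht⟩)
        refine ⟨g, by omega, ?_⟩
        simp only [if_pos hg]
        exact he
    · intro g hg
      by_cases h : g < n
      · simp only [if_pos h]
        exact Finset.mem_of_mem_erase (hmem g h)
      · simp only [if_neg h]
        exact hm

variable {α : Type*} [DecidableEq α] {w k Δ : ℕ} {X Y : α → ℕ} {Q V : Finset α} {v : ℕ → ℕ → ℕ}
  {I J : ℕ → ℕ} {u : ℕ}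

/-- iterated stack law -/
theorem stack_iter (h : RegD (2 ^ w) k Δ X Y Q v) (hQ : Q.Nonempty)
    (hI : ∀ g g', g ≤ g' → I g' ≤ I g) (hJ : ∀ g g', g ≤ g' → J g ≤ J g')
    (hIJ : ∀ g, I g ≤ k ∧ J g ≤ k)
    (hanti : ∀ g < u, ∀ p ∈ Q, ∀ q ∈ Q, cl (2 ^ w) X Y (I g) (J g) p =
      cl (2 ^ w) X Y (I g) (J g) q → ¬ (X p < X q ∧ Y p < Y q)) (r m : ℕ) :
    ∀ d, r + 1 + d < u → (∀ h, r ≤ h → h < r + 1 + d → m ≤ v (I (h + 1)) (J h)) →
      m ≤ v (I (r + 1 + d)) (J r) + d * (Δ + 2) := by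
  intro d
  induction d with
  | zero =>
    intro _ hm
    have := hm r le_rfl (by omega)
    simpa using this
  | succ d ih =>
    intro hu hm
    have h1 := ih (by omega) (fun h h1 h2 => hm h h1 (by omega))
    have h2 := h.stack (i := I (r + 1 + d)) (j := J (r + 1 + d)) (i' := I (r + 1 + d + 1))
      (j' := J r) (hI _ _ (Nat.le_succ _)) (hJ _ _ (by omega)) (hIJ _).1 (hIJ _).2 hQ
      (hanti (r + 1 + d) (by omega))
    have h3 := hm (r + 1 + d) (by omega) (by omega)
    have h4 : (d + 1) * (Δ + 2) = d * (Δ + 2) + (Δ + 2) := by ring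
    have h5 : r + 1 + (d + 1) = r + 1 + d + 1 := by ring
    rw [h5, h4]
    rcases le_total (v (I (r + 1 + d)) (J r)) (v (I (r + 1 + d + 1)) (J (r + 1 + d))) with h6 | h6
    · rw [min_eq_left h6] at h2
      omega
    · rw [min_eq_right h6] at h2
      omega

/-- One group of types. -/
theorem group_step (h : RegD (2 ^ w) k Δ X Y Q v) (hQ : Q.Nonempty) (hu : 0 < u)
    (hI : ∀ g g', g ≤ g' → I g' ≤ I g) (hJ : ∀ g g', g ≤ g' → J g ≤ J g')
    (hIJ : ∀ g, I g ≤ k ∧ J g ≤ k)
    (hanti : ∀ g < u, ∀ p ∈ Q, ∀ q ∈ Q, cl (2 ^ w) X Y (I g) (J g) p =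
      cl (2 ^ w) X Y (I g) (J g) q → ¬ (X p < X q ∧ Y p < Y q))
    {μ : ℕ} (Gr : Finset ℕ) (hGr : ∀ g ∈ Gr, g < u)
    (hval : ∀ r ∈ Gr, ∀ g ∈ Gr, ∀ h, r ≤ h → h < g →
      min (v (I r) (J r)) (v (I g) (J g)) ≤ v (I (h + 1)) (J h) + μ)
    (S : Finset α) (hS : S ⊆ Q) :
    ∃ S' ⊆ S, S.card ≤ 4 * (u * 2 ^ (2 * w) * 2 ^ (μ + u * (Δ + 2) + Δ + 1)) * S'.card ∧
      ∀ p ∈ S', ∀ q ∈ S', ∀ g ∈ Gr, ¬ (Edge X Y V p q ∧ Typ (2 ^ w) X Y (I g, J g) p q) := by
  classical
  rcases Gr.eq_empty_or_nonempty with rfl | hne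
  · refine ⟨S, Finset.Subset.refl _, ?_, fun p _ q _ g hg => absurd hg (Finset.notMem_empty g)⟩
    have : 1 ≤ 4 * (u * 2 ^ (2 * w) * 2 ^ (μ + u * (Δ + 2) + Δ + 1)) := by
      have : 0 < u * 2 ^ (2 * w) * 2 ^ (μ + u * (Δ + 2) + Δ + 1) := by positivity
      omega
    calc S.card = 1 * S.card := (one_mul _).symm
      _ ≤ _ := Nat.mul_le_mul_right _ this
  · obtain ⟨r0, hr0, hmax⟩ := Finset.exists_max_image Gr (fun g => v (I g) (J g)) hne
    have hr0u := hGr r0 hr0
    have hupos : 0 < u := by omega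
    set cls : α → ℕ × ℕ := cl (2 ^ w) X Y (I r0) (J r0) with hcls
    set K : ℕ := 2 ^ (μ + u * (Δ + 2) + Δ + 1) with hK
    set Z : ℕ → α → Finset α := fun g p => S.filter
      (fun q => Edge X Y V p q ∧ Typ (2 ^ w) X Y (I g, J g) p q) with hZ
    -- number of classes seen
    have hseen : ∀ g ∈ Gr, ∀ p ∈ S, ((Z g p).image cls).card ≤ 2 ^ (2 * w) * K := by
      intro g hg p hp
      have hgu := hGr g hg
      -- comparison of sizes
      have hcomp : v (I g) (J g) ≤ v (min (I g) (I r0)) (min (J g) (J r0)) +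
          (μ + u * (Δ + 2)) := by
        rcases Nat.lt_trichotomy g r0 with hlt | heq | hlt
        · rw [min_eq_right (hI _ _ hlt.le), min_eq_left (hJ _ _ hlt.le)]
          have e1 := stack_iter (u := u) h hQ hI hJ hIJ hanti g (v (I g) (J g) - μ) (r0 - (g + 1))
            (by omega) (by
              intro h' h1 h2
              have := hval g hg r0 hr0 h' h1 (by omega)
              have h3 := hmax g hg
              rw [min_eq_left h3] at this
              omega)
          have e2 : g + 1 + (r0 - (g + 1)) = r0 := by omega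
          rw [e2] at e1
          have e3 : (r0 - (g + 1)) * (Δ + 2) ≤ u * (Δ + 2) := Nat.mul_le_mul_right _ (by omega)
          omega
        · rw [heq, min_self, min_self]
          omega
        · rw [min_eq_left (hI _ _ hlt.le), min_eq_right (hJ _ _ hlt.le)]
          have e1 := stack_iter (u := u) h hQ hI hJ hIJ hanti r0 (v (I g) (J g) - μ) (g - (r0 + 1))
            (by omega) (by
              intro h' h1 h2
              have := hval r0 hr0 g hg h' h1 (by omega)
              have h3 := hmax g hg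
              rw [min_eq_right h3] at this
              omega)
          have e2 : r0 + 1 + (g - (r0 + 1)) = g := by omega
          rw [e2] at e1
          have e3 : (g - (r0 + 1)) * (Δ + 2) ≤ u * (Δ + 2) := Nat.mul_le_mul_right _ (by omega)
          omega
      have hwin : ((Z g p).image (cl (2 ^ w) X Y (I g) (J g))).card ≤ (2 ^ w) ^ 2 := by
        apply card_window_le (by positivity) (z := cl (2 ^ w) X Y (I g + 1) (J g + 1) p)
        intro q hq
        rw [hZ, Finset.mem_filter] at hq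
        rw [cl, cl, hq.2.2.1.2, hq.2.2.2.2]
      have hsub : (Z g p).image cls ⊆ ((Z g p).image (cl (2 ^ w) X Y (I g) (J g))).biUnion
          (fun z => (Q.filter (fun q => cl (2 ^ w) X Y (I g) (J g) q = z)).image cls) := by
        intro y hy
        obtain ⟨q, hq, rfl⟩ := Finset.mem_image.mp hy
        rw [Finset.mem_biUnion]
        refine ⟨_, Finset.mem_image_of_mem _ hq, Finset.mem_image_of_mem _ ?_⟩
        rw [Finset.mem_filter]
        rw [hZ, Finset.mem_filter] at hq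
        exact ⟨hS hq.1, rfl⟩
      refine (Finset.card_le_card hsub).trans ?_
      refine (Finset.card_biUnion_le_card_mul _ _ K ?_).trans ?_
      · intro z hz
        obtain ⟨q, hq, rfl⟩ := Finset.mem_image.mp hz
        rw [hZ, Finset.mem_filter] at hq
        have := h.seen_le (i := I g) (j := J g) (i'' := I r0) (j'' := J r0) (hIJ g).1 (hIJ g).2
          hcomp (hS hq.1)
        rw [hK, hcls]
        exact this
      · calc ((Z g p).image (cl (2 ^ w) X Y (I g) (J g))).card * K ≤ (2 ^ w) ^ 2 * K :=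
            Nat.mul_le_mul_right _ hwin
          _ = 2 ^ (2 * w) * K := by rw [← pow_mul, mul_comm w 2]
    obtain ⟨S', hS'S, hcard, hS'⟩ := sampling S cls
      (fun p => Gr.biUnion (fun g => (Z g p).image cls)) (u * 2 ^ (2 * w) * K)
      (by positivity) (by
        intro p hp
        refine (Finset.card_biUnion_le_card_mul _ _ (2 ^ (2 * w) * K)
          (fun g hg => hseen g hg p hp)).trans ?_
        rw [mul_assoc]
        apply Nat.mul_le_mul_right
        calc Gr.card ≤ (Finset.range u).card :=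
              Finset.card_le_card (fun g hg => Finset.mem_range.mpr (hGr g hg))
          _ = u := Finset.card_range u)
      (by
        intro p hp hmem
        rw [Finset.mem_biUnion] at hmem
        obtain ⟨g, hg, hmem⟩ := hmem
        obtain ⟨q, hq, hqp⟩ := Finset.mem_image.mp hmem
        rw [hZ, Finset.mem_filter] at hq
        exact hanti r0 hr0u p (hS hp) q (hS hq.1) hqp.symm ⟨hq.2.1.1, hq.2.1.2.1⟩)
    refine ⟨S', hS'S, hcard, ?_⟩
    rintro p hp q hq g hg ⟨he, ht⟩
    apply hS' p hp q hq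
    rw [Finset.mem_biUnion]
    refine ⟨g, hg, Finset.mem_image_of_mem _ ?_⟩
    rw [hZ, Finset.mem_filter]
    exact ⟨hS'S hq, he, ht⟩

/-- All groups of types. -/
theorem all_groups (h : RegD (2 ^ w) k Δ X Y Q v) (hQ : Q.Nonempty) (hu : 0 < u)
    (hI : ∀ g g', g ≤ g' → I g' ≤ I g) (hJ : ∀ g g', g ≤ g' → J g ≤ J g')
    (hIJ : ∀ g, I g ≤ k ∧ J g ≤ k)
    (hanti : ∀ g < u, ∀ p ∈ Q, ∀ q ∈ Q, cl (2 ^ w) X Y (I g) (J g) p =
      cl (2 ^ w) X Y (I g) (J g) q → ¬ (X p < X q ∧ Y p < Y q))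
    {μ : ℕ} (Gr : ℕ → Finset ℕ) (hGr : ∀ m, ∀ g ∈ Gr m, g < u)
    (hval : ∀ m, ∀ r ∈ Gr m, ∀ g ∈ Gr m, ∀ h, r ≤ h → h < g →
      min (v (I r) (J r)) (v (I g) (J g)) ≤ v (I (h + 1)) (J h) + μ) (N : ℕ) :
    ∃ S ⊆ Q, Q.card ≤ (4 * (u * 2 ^ (2 * w) * 2 ^ (μ + u * (Δ + 2) + Δ + 1))) ^ N * S.card ∧
      ∀ m < N, ∀ p ∈ S, ∀ q ∈ S, ∀ g ∈ Gr m,
        ¬ (Edge X Y V p q ∧ Typ (2 ^ w) X Y (I g, J g) p q) := by
  induction N with
  | zero => exact ⟨Q, Finset.Subset.refl _, by simp, fun m hm => absurd hm (Nat.not_lt_zero m)⟩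
  | succ N ih =>
    obtain ⟨S, hSQ, hS1, hS2⟩ := ih
    obtain ⟨S', hS'S, hS'1, hS'2⟩ := group_step (V := V) h hQ hu hI hJ hIJ hanti (Gr N) (hGr N)
      (hval N) S hSQ
    refine ⟨S', hS'S.trans hSQ, ?_, ?_⟩
    · calc Q.card ≤ _ := hS1
        _ ≤ (4 * (u * 2 ^ (2 * w) * 2 ^ (μ + u * (Δ + 2) + Δ + 1))) ^ N *
            (4 * (u * 2 ^ (2 * w) * 2 ^ (μ + u * (Δ + 2) + Δ + 1)) * S'.card) :=
            Nat.mul_le_mul_left _ hS'1
        _ = _ := by rw [pow_succ]; ring
    · intro m hm p hp q hq g hg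
      rcases Nat.lt_succ_iff_lt_or_eq.mp hm with h1 | h1
      · exact hS2 m h1 p (hS'S hp) q (hS'S hq) g hg
      · subst h1
        exact hS'2 p hp q hq g hg

/-- Independent sets in regular data. -/
theorem indep_of_reg (h : RegD (2 ^ w) k Δ X Y Q v) (hQ : Q.Nonempty) (hu : 0 < u)
    (huk : u ≤ k ^ 2)
    (hI : ∀ g g', g ≤ g' → I g' ≤ I g) (hJ : ∀ g g', g ≤ g' → J g ≤ J g')
    (hIJ : ∀ g, I g ≤ k ∧ J g ≤ k)
    (hanti : ∀ g < u, ∀ p ∈ Q, ∀ q ∈ Q, cl (2 ^ w) X Y (I g) (J g) p =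
      cl (2 ^ w) X Y (I g) (J g) q → ¬ (X p < X q ∧ Y p < Y q))
    {c B : ℕ} (hc : c = 2 * w + k ^ 2 + Δ + 3 + k ^ 2 * (Δ + 2)) (hB : 0 < B) :
    ∃ S ⊆ Q, Q.card ≤ 2 ^ (2 ^ B * c + 2 * (2 * (w * k + c) / B)) * S.card ∧
      ∀ p ∈ S, ∀ q ∈ S, ∀ g < u, ¬ (Edge X Y V p q ∧ Typ (2 ^ w) X Y (I g, J g) p q) := by
  classical
  set s : ℕ → ℕ := fun g => v (I g) (J g) with hs
  set val : ℕ → ℕ := fun g => v (I (g + 1)) (J g) with hval
  have hv1 : ∀ g, val g ≤ s g := fun g =>
    h.mono _ _ _ _ (hI _ _ (Nat.le_succ g)) le_rfl (hIJ g).1 (hIJ g).2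
  have hv2 : ∀ g, val g ≤ s (g + 1) := fun g =>
    h.mono _ _ _ _ le_rfl (hJ _ _ (Nat.le_succ g)) (hIJ _).1 (hIJ _).2
  obtain ⟨Cut, hCut1, hCut2, hCut3⟩ := profile c B s val hv1 hv2 (u - 1) 0
  rw [zero_add] at hCut1 hCut3
  simp only [zero_add] at hCut2
  -- up-variation
  have hU : ∑ g ∈ Finset.Ico 0 (u - 1), (s (g + 1) - val g) ≤ w * k + c := by
    have h1 : ∀ g ∈ Finset.Ico 0 (u - 1), s (g + 1) - val g ≤
        w * (J (g + 1) - J g) + (Δ + 1) := by
      intro g _
      have := h.up (i := I (g + 1)) (j := J (g + 1)) (j' := J g) (hJ _ _ (Nat.le_succ g))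
        (hIJ _).1 (hIJ _).2 hQ
      rw [hs, hval]
      simp only
      omega
    refine (Finset.sum_le_sum h1).trans ?_
    rw [Finset.sum_add_distrib, ← Finset.mul_sum, Finset.sum_const, Nat.card_Ico, smul_eq_mul]
    have h2 : ∑ g ∈ Finset.Ico 0 (u - 1), (J (g + 1) - J g) ≤ k := by
      rw [Nat.Ico_zero_eq_range, Finset.sum_range_tsub (fun g g' hgg => hJ g g' hgg)]
      exact (Nat.sub_le _ _).trans (hIJ _).2
    have h3 : (u - 1 - 0) * (Δ + 1) ≤ k ^ 2 * (Δ + 2) :=
      Nat.mul_le_mul (by omega) (by omega)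
    have h4 : w * ∑ g ∈ Finset.Ico 0 (u - 1), (J (g + 1) - J g) ≤ w * k :=
      Nat.mul_le_mul_left _ h2
    omega
  -- choice of the threshold
  have hsum : ∑ j ∈ range B, 2 ^ j * c * (Cut j).card ≤ 2 * (w * k + c) := by
    have hsa : s 0 ≤ (Finset.Icc 0 (u - 1)).sup s :=
      Finset.le_sup (f := s) (Finset.mem_Icc.mpr ⟨le_rfl, Nat.zero_le _⟩)
    omega
  obtain ⟨j, hj, hjle⟩ : ∃ j ∈ range B, B * (2 ^ j * c * (Cut j).card) ≤ 2 * (w * k + c) := by
    by_contra hcon
    push Not at hcon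
    have h1 : ∑ j ∈ range B, 2 * (w * k + c) < ∑ j ∈ range B, B * (2 ^ j * c * (Cut j).card) :=
      Finset.sum_lt_sum_of_nonempty ⟨0, Finset.mem_range.mpr hB⟩ hcon
    rw [Finset.sum_const, Finset.card_range, smul_eq_mul, ← Finset.mul_sum] at h1
    exact absurd (Nat.lt_of_mul_lt_mul_left h1) (not_lt.mpr hsum)
  rw [Finset.mem_range] at hj
  have hjle2 : 2 ^ j * c * (Cut j).card ≤ 2 * (w * k + c) / B :=
    (Nat.le_div_iff_mul_le hB).mpr (by rw [mul_comm]; exact hjle)
  set μ := 2 ^ j * c with hμ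
  set Gr : ℕ → Finset ℕ := fun m => (Finset.range u).filter
    (fun g => ((Cut j).filter (fun x => x < g)).card = m) with hGr
  obtain ⟨S, hSQ, hS1, hS2⟩ := all_groups (V := V) (μ := μ) h hQ hu hI hJ hIJ hanti Gr
    (by
      intro m g hg
      rw [hGr, Finset.mem_filter, Finset.mem_range] at hg
      exact hg.1)
    (by
      intro m r hr g hg h' hrh hhg
      rw [hGr, Finset.mem_filter, Finset.mem_range] at hr hg
      refine hCut2 j r h' g (Nat.zero_le _) hrh hhg (by omega) ?_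
      intro x hx hxx
      have h1 : (Cut j).filter (fun x => x < r) ⊂ (Cut j).filter (fun x => x < g) := by
        rw [Finset.ssubset_iff_of_subset]
        · exact ⟨x, Finset.mem_filter.mpr ⟨hx, hxx.2⟩, fun hx' => by
            have := (Finset.mem_filter.mp hx').2
            omega⟩
        · intro y hy
          rw [Finset.mem_filter] at hy ⊢
          exact ⟨hy.1, by omega⟩
      have := Finset.card_lt_card h1
      omega) ((Cut j).card + 1)
  refine ⟨S, hSQ, ?_, ?_⟩
  · refine hS1.trans (Nat.mul_le_mul_right _ ?_)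
    have e1 : 4 * (u * 2 ^ (2 * w) * 2 ^ (μ + u * (Δ + 2) + Δ + 1)) ≤ 2 ^ (c + μ) := by
      have f1 : u ≤ 2 ^ (k ^ 2) := huk.trans (Nat.lt_two_pow_self).le
      have f2 : u * (Δ + 2) ≤ k ^ 2 * (Δ + 2) := Nat.mul_le_mul_right _ huk
      calc 4 * (u * 2 ^ (2 * w) * 2 ^ (μ + u * (Δ + 2) + Δ + 1))
          ≤ 2 ^ 2 * (2 ^ (k ^ 2) * 2 ^ (2 * w) * 2 ^ (μ + k ^ 2 * (Δ + 2) + Δ + 1)) := by
            apply Nat.mul_le_mul (by norm_num)
            apply Nat.mul_le_mul (Nat.mul_le_mul_right _ f1)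
            exact Nat.pow_le_pow_right (by norm_num) (by omega)
        _ = 2 ^ (c + μ) := by
            rw [← pow_add, ← pow_add, ← pow_add]
            congr 1
            omega
    have e2 : c ≤ μ := by
      rw [hμ]
      exact Nat.le_mul_of_pos_left _ (by positivity)
    have e3 : 2 * μ ≤ 2 ^ B * c := by
      have : 2 ^ (j + 1) ≤ 2 ^ B := Nat.pow_le_pow_right (by norm_num) (by omega)
      calc 2 * μ = 2 ^ (j + 1) * c := by rw [hμ]; ring
        _ ≤ _ := Nat.mul_le_mul_right _ this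
    have e4 : (c + μ) * ((Cut j).card + 1) ≤ 2 ^ B * c + 2 * (2 * (w * k + c) / B) := by
      calc (c + μ) * ((Cut j).card + 1) ≤ (2 * μ) * ((Cut j).card + 1) :=
            Nat.mul_le_mul_right _ (by omega)
        _ = 2 * μ + 2 * (μ * (Cut j).card) := by ring
        _ ≤ _ := by omega
    calc (4 * (u * 2 ^ (2 * w) * 2 ^ (μ + u * (Δ + 2) + Δ + 1))) ^ ((Cut j).card + 1)
        ≤ (2 ^ (c + μ)) ^ ((Cut j).card + 1) := Nat.pow_le_pow_left e1 _
      _ = 2 ^ ((c + μ) * ((Cut j).card + 1)) := by rw [← pow_mul]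
      _ ≤ _ := Nat.pow_le_pow_right (by norm_num) e4
  · intro p hp q hq g hg
    refine hS2 (((Cut j).filter (fun x => x < g)).card) ?_ p hp q hq g ?_
    · exact Nat.lt_succ_of_le (Finset.card_le_card (Finset.filter_subset _ _))
    · rw [hGr, Finset.mem_filter, Finset.mem_range]
      exact ⟨hg, rfl⟩

end Pool.Agent.Helper64.RectU
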