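import Mathlib

/-!
Regularisation of class sizes (MP_b66d25_co, upper bound).
-/

open Finset

namespace Pool.Agent.Helper64.RectU

/-- Pigeonhole: a large fibre. -/
theorem exists_fiber {α γ : Type*} [DecidableEq α] [DecidableEq γ] (P : Finset α) (T : Finset γ)
    (hT : T.Nonempty) (f : α → γ) (hf : ∀ p ∈ P, f p ∈ T) :
    ∃ c ∈ T, P.card ≤ T.card * (P.filter (fun p => f p = c)).card := by
  by_contra hcon
  push Not at hcon
  have h1 : P.card = ∑ c ∈ T, (P.filter (fun p => f p = c)).card :=
    Finset.card_eq_sum_card_fiberwise hf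
  have h2 : T.card * P.card < T.card * P.card := by
    calc T.card * P.card = ∑ c ∈ T, T.card * (P.filter (fun p => f p = c)).card := by
          rw [← Finset.mul_sum, ← h1]
      _ < ∑ _c ∈ T, P.card := Finset.sum_lt_sum_of_nonempty hT hcon
      _ = T.card * P.card := by rw [Finset.sum_const, smul_eq_mul]
  exact lt_irrefl _ h2

/-- All class sizes can be made regular on a large subset. -/
theorem regular {α β τ : Type*} [DecidableEq α] [DecidableEq β] [Fintype τ] [DecidableEq τ]
    [Nonempty τ]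
    (P : Finset α) (cl : τ → α → β) (L : ℕ) (hL : P.card < 2 ^ (L + 1)) :
    ∃ Q ⊆ P, ∃ v : τ → ℕ, P.card ≤ 2 * (L + 1) ^ (Fintype.card τ) * Q.card ∧
      (∀ p ∈ Q, ∀ a, 2 ^ v a ≤ (P.filter (fun q => cl a q = cl a p)).card ∧
        (P.filter (fun q => cl a q = cl a p)).card < 2 ^ (v a + 1) ∧
        2 ^ v a ≤ 2 * Fintype.card τ * (L + 1) ^ (Fintype.card τ) *
          (Q.filter (fun q => cl a q = cl a p)).card) := by
  classical
  set A := Fintype.card τ with hA
  set sz : τ → α → ℕ := fun a p => (P.filter (fun q => cl a q = cl a p)).card with hsz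
  set vec : α → (τ → Fin (L + 1)) := fun p a => ⟨min L (Nat.log 2 (sz a p)), by omega⟩ with hvec
  obtain ⟨c, -, hc⟩ := exists_fiber P (univ : Finset (τ → Fin (L + 1))) ⟨fun _ => 0, mem_univ _⟩ vec
    (fun p _ => mem_univ _)
  rw [Finset.card_univ, Fintype.card_fun, Fintype.card_fin, ← hA] at hc
  set P' := P.filter (fun p => vec p = c) with hP'
  set v : τ → ℕ := fun a => (c a : ℕ) with hv
  have hPsub : P' ⊆ P := Finset.filter_subset _ _
  -- sizes
  have hsize : ∀ p ∈ P', ∀ a, 2 ^ v a ≤ sz a p ∧ sz a p < 2 ^ (v a + 1) := by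
    intro p hp a
    rw [hP', Finset.mem_filter] at hp
    have h1 : sz a p < 2 ^ (L + 1) := lt_of_le_of_lt (Finset.card_le_card (Finset.filter_subset _ _)) hL
    have h0 : sz a p ≠ 0 := by
      rw [hsz]
      exact Finset.card_ne_zero_of_mem (Finset.mem_filter.mpr ⟨hp.1, rfl⟩)
    have h2 : Nat.log 2 (sz a p) ≤ L := by
      have := Nat.log_lt_of_lt_pow h0 h1
      omega
    have h3 : v a = Nat.log 2 (sz a p) := by
      rw [hv]
      simp only
      rw [← hp.2, hvec]
      simp only
      omega
    rw [h3]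
    exact ⟨Nat.pow_log_le_self 2 h0, Nat.lt_pow_succ_log_self (by norm_num) _⟩
  rcases Nat.eq_zero_or_pos P.card with hP0 | hPpos
  · refine ⟨∅, Finset.empty_subset _, fun _ => 0, by simp [hP0], ?_⟩
    intro p hp
    exact absurd hp (Finset.notMem_empty p)
  have hLpos : 0 < (L + 1) ^ A := pow_pos (by omega) _
  have hP'pos : 0 < P'.card := by
    by_contra h
    push Not at h
    have : P'.card = 0 := by omega
    rw [this] at hc
    omega
  -- potential (multiplied by `2 A |P|`)
  set cnt : Finset α → τ → ℕ := fun Q a => (Q.image (cl a)).card with hcnt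
  set K : ℤ := 2 * A * P.card with hK
  set f : Finset α → ℤ := fun Q => K * Q.card - ∑ a, (2 ^ v a * P'.card * cnt Q a : ℤ) with hf
  obtain ⟨Q, hQmem, hQmax⟩ := Finset.exists_max_image P'.powerset f ⟨∅, by simp⟩
  rw [Finset.mem_powerset] at hQmem
  have hApos : 0 < A := Fintype.card_pos
  have hKpos : 0 < K := by
    have h1 : (0 : ℤ) < (A : ℤ) := by exact_mod_cast hApos
    have h2 : (0 : ℤ) < (P.card : ℤ) := by exact_mod_cast hPpos
    rw [hK]
    exact mul_pos (mul_pos two_pos h1) h2
  -- number of classes of P'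
  have hcl : ∀ a, 2 ^ v a * cnt P' a ≤ P.card := by
    intro a
    have h1 : ∑ b ∈ P'.image (cl a), (P.filter (fun q => cl a q = b)).card ≤ P.card := by
      rw [← Finset.card_biUnion]
      · apply Finset.card_le_card
        intro x hx
        obtain ⟨b, -, hb⟩ := Finset.mem_biUnion.mp hx
        exact (Finset.mem_filter.mp hb).1
      · intro b _ b' _ hbb
        rw [Function.onFun, Finset.disjoint_left]
        intro x hx hx'
        exact hbb ((Finset.mem_filter.mp hx).2.symm.trans (Finset.mem_filter.mp hx').2)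
    have h2 : ∑ _b ∈ P'.image (cl a), 2 ^ v a ≤
        ∑ b ∈ P'.image (cl a), (P.filter (fun q => cl a q = b)).card := by
      apply Finset.sum_le_sum
      intro b hb
      obtain ⟨p, hp, rfl⟩ := Finset.mem_image.mp hb
      exact (hsize p hp a).1
    rw [Finset.sum_const, smul_eq_mul] at h2
    rw [hcnt]
    calc 2 ^ v a * (P'.image (cl a)).card = (P'.image (cl a)).card * 2 ^ v a := mul_comm _ _
      _ ≤ _ := h2.trans h1
  have hfP : K * P'.card ≤ 2 * f P' := by
    have h1 : ∑ a, (2 ^ v a * P'.card * cnt P' a : ℤ) ≤ ∑ _a : τ, (P'.card * P.card : ℤ) := by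
      apply Finset.sum_le_sum
      intro a _
      have := hcl a
      have h2 : ((2 ^ v a * cnt P' a : ℕ) : ℤ) ≤ (P.card : ℤ) := by exact_mod_cast this
      push_cast at h2
      have h3 : (0 : ℤ) ≤ (P'.card : ℤ) := Int.natCast_nonneg _
      have h4 := mul_le_mul_of_nonneg_left h2 h3
      calc (2 ^ v a * P'.card * cnt P' a : ℤ) = P'.card * (2 ^ v a * cnt P' a) := by ring
        _ ≤ _ := h4
    rw [Finset.sum_const, Finset.card_univ, ← hA, nsmul_eq_mul] at h1
    rw [hf, hK]
    simp only
    have h5 : (A : ℤ) * ((P'.card : ℤ) * P.card) * 2 = 2 * A * P.card * P'.card := by ring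
    linarith
  have hfQ : f P' ≤ f Q := hQmax P' (Finset.mem_powerset.mpr (Finset.Subset.refl _))
  have hfQle : f Q ≤ K * Q.card := by
    rw [hf]
    simp only
    have : (0 : ℤ) ≤ ∑ a, (2 ^ v a * P'.card * cnt Q a : ℤ) := by
      apply Finset.sum_nonneg
      intro a _
      exact mul_nonneg (mul_nonneg (pow_nonneg (by norm_num) _) (Int.natCast_nonneg _))
        (Int.natCast_nonneg _)
    linarith
  have hhalf : P'.card ≤ 2 * Q.card := by
    have h1 : K * P'.card ≤ K * (2 * Q.card) := by linarith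
    have h2 := le_of_mul_le_mul_left h1 hKpos
    exact_mod_cast h2
  refine ⟨Q, hQmem.trans hPsub, v, ?_, ?_⟩
  · calc P.card ≤ (L + 1) ^ A * P'.card := hc
      _ ≤ (L + 1) ^ A * (2 * Q.card) := Nat.mul_le_mul_left _ hhalf
      _ = 2 * (L + 1) ^ A * Q.card := by ring
  · intro p hp a
    have hpP' := hQmem hp
    refine ⟨(hsize p hpP' a).1, (hsize p hpP' a).2, ?_⟩
    -- remove the class of p
    set C := Q.filter (fun q => cl a q = cl a p) with hC
    set Q' := Q \ C with hQ'
    have hCsub : C ⊆ Q := Finset.filter_subset _ _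
    have hQ'sub : Q' ⊆ Q := Finset.sdiff_subset
    have hmax := hQmax Q' (Finset.mem_powerset.mpr (hQ'sub.trans hQmem))
    have hcard : (Q'.card : ℤ) = Q.card - C.card := by
      rw [hQ', Finset.card_sdiff_of_subset hCsub, Nat.cast_sub (Finset.card_le_card hCsub)]
    have hcnt1 : ∀ b, cnt Q' b ≤ cnt Q b := fun b =>
      Finset.card_le_card (Finset.image_subset_image hQ'sub)
    have hcnt2 : cnt Q' a + 1 ≤ cnt Q a := by
      rw [hcnt]
      simp only
      rw [← Nat.lt_iff_add_one_le]
      apply Finset.card_lt_card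
      rw [Finset.ssubset_iff_of_subset (Finset.image_subset_image hQ'sub)]
      refine ⟨cl a p, Finset.mem_image_of_mem _ hp, ?_⟩
      intro hmem
      obtain ⟨q, hq, hqa⟩ := Finset.mem_image.mp hmem
      rw [hQ', Finset.mem_sdiff] at hq
      exact hq.2 (Finset.mem_filter.mpr ⟨hq.1, hqa⟩)
    have hsum : ∑ b, (2 ^ v b * P'.card * cnt Q' b : ℤ) + 2 ^ v a * P'.card ≤
        ∑ b, (2 ^ v b * P'.card * cnt Q b : ℤ) := by
      rw [← Finset.add_sum_erase univ _ (mem_univ a), ← Finset.add_sum_erase univ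
        (fun b => (2 ^ v b * P'.card * cnt Q b : ℤ)) (mem_univ a)]
      have h1 : ∑ b ∈ univ.erase a, (2 ^ v b * P'.card * cnt Q' b : ℤ) ≤
          ∑ b ∈ univ.erase a, (2 ^ v b * P'.card * cnt Q b : ℤ) := by
        apply Finset.sum_le_sum
        intro b _
        have : (cnt Q' b : ℤ) ≤ cnt Q b := by exact_mod_cast hcnt1 b
        exact mul_le_mul_of_nonneg_left this
          (mul_nonneg (pow_nonneg (by norm_num) _) (Int.natCast_nonneg _))
      have h2 : (2 ^ v a * P'.card * cnt Q' a : ℤ) + 2 ^ v a * P'.card ≤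
          2 ^ v a * P'.card * cnt Q a := by
        have : (cnt Q' a : ℤ) + 1 ≤ cnt Q a := by exact_mod_cast hcnt2
        have h3 : (0 : ℤ) ≤ 2 ^ v a * P'.card :=
          mul_nonneg (pow_nonneg (by norm_num) _) (Int.natCast_nonneg _)
        have h4 := mul_le_mul_of_nonneg_left this h3
        linarith
      linarith
    have hfin : (2 ^ v a * P'.card : ℤ) ≤ K * C.card := by
      rw [hf] at hmax
      simp only at hmax
      rw [hcard] at hmax
      have h5 : K * ((Q.card : ℤ) - C.card) = K * Q.card - K * C.card := by ring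
      rw [h5] at hmax
      linarith
    have hfin2 : 2 ^ v a * P'.card ≤ 2 * A * P.card * C.card := by
      rw [hK] at hfin
      exact_mod_cast hfin
    have h3 : P'.card * 2 ^ v a ≤ P'.card * (2 * A * (L + 1) ^ A * C.card) := by
      calc P'.card * 2 ^ v a = 2 ^ v a * P'.card := mul_comm _ _
        _ ≤ 2 * A * P.card * C.card := hfin2
        _ ≤ 2 * A * ((L + 1) ^ A * P'.card) * C.card := by gcongr
        _ = _ := by ring
    exact Nat.le_of_mul_le_mul_left h3 hP'pos

end Pool.Agent.Helper64.RectU
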