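import Mathlib
import Pool.Agent.Helper64.RectU.Reg
import Pool.Agent.Helper64.RectU.Groups

/-!
Large sets without increasing visible pairs (MP_b66d25_co, upper bound).
-/

open Finset

namespace Pool.Agent.Helper64.RectU

theorem main_indep {α : Type*} [DecidableEq α] (w k l B : ℕ) {X Y : α → ℕ} (V : Finset α)
    (hX : Set.InjOn X V) (hY : Set.InjOn Y V) (hXb : ∀ p ∈ V, X p < (2 ^ w) ^ k)
    (hYb : ∀ p ∈ V, Y p < (2 ^ w) ^ k) (hl : w * k + 1 ≤ 2 ^ l) (hB : 0 < B) {Δ c : ℕ}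
    (hΔ : Δ = (k + 1) ^ 2 * (l + 2)) (hc : c = 2 * w + k ^ 2 + Δ + 3 + k ^ 2 * (Δ + 2)) :
    ∃ S ⊆ V, V.card ≤ 2 ^ (k ^ 2 + 1 + (k + 1) ^ 2 * l + (2 ^ B * c + 2 * (2 * (w * k + c) / B))) *
      S.card ∧ ∀ p ∈ S, ∀ q ∈ S, ¬ Edge X Y V p q := by
  classical
  rcases V.eq_empty_or_nonempty with rfl | hV
  · exact ⟨∅, Finset.Subset.refl _, by simp, fun p hp => absurd hp (Finset.notMem_empty p)⟩
  -- statuses
  set R : Finset (ℕ × ℕ) := Finset.range k ×ˢ Finset.range k with hR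
  set Out : α → Finset (ℕ × ℕ) := fun p => R.filter
    (fun t => ∃ q ∈ V, Edge X Y V p q ∧ Typ (2 ^ w) X Y t p q) with hOut
  obtain ⟨T, hTR, hT⟩ := exists_fiber V R.powerset ⟨∅, by simp⟩ Out
    (fun p _ => Finset.mem_powerset.mpr (Finset.filter_subset _ _))
  rw [Finset.mem_powerset] at hTR
  have hRc : R.card = k ^ 2 := by
    rw [hR, Finset.card_product, Finset.card_range]; ring
  rw [Finset.card_powerset, hRc] at hT
  set P := V.filter (fun p => Out p = T) with hP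
  have hPV : P ⊆ V := Finset.filter_subset _ _
  have hVc : V.card ≤ (2 ^ w) ^ k := by
    calc V.card = (V.image X).card := (Finset.card_image_of_injOn hX).symm
      _ ≤ (Finset.range ((2 ^ w) ^ k)).card := by
          apply Finset.card_le_card
          intro x hx
          obtain ⟨p, hp, rfl⟩ := Finset.mem_image.mp hx
          exact Finset.mem_range.mpr (hXb p hp)
      _ = _ := Finset.card_range _
  have hPc : P.card < 2 ^ (w * k + 1) := by
    calc P.card ≤ V.card := Finset.card_le_card hPV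
      _ ≤ (2 ^ w) ^ k := hVc
      _ = 2 ^ (w * k) := by rw [← pow_mul]
      _ < 2 ^ (w * k + 1) := Nat.pow_lt_pow_right (by norm_num) (Nat.lt_succ_self _)
  have hPpos : 0 < P.card := by
    by_contra h
    push Not at h
    have h0 : P.card = 0 := by omega
    rw [h0, mul_zero] at hT
    have := Finset.card_pos.mpr hV
    omega
  obtain ⟨Q, hQP, vt, hQc, hQ⟩ := regular (τ := Fin (k + 1) × Fin (k + 1)) P
    (fun a => cl (2 ^ w) X Y (a.1 : ℕ) (a.2 : ℕ)) (w * k) hPc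
  have hcard : Fintype.card (Fin (k + 1) × Fin (k + 1)) = (k + 1) ^ 2 := by
    rw [Fintype.card_prod, Fintype.card_fin]; ring
  rw [hcard] at hQc
  rw [hcard] at hQ
  have hQne : Q.Nonempty := by
    rw [← Finset.card_pos]
    by_contra h
    push Not at h
    have h0 : Q.card = 0 := by omega
    rw [h0, mul_zero] at hQc
    omega
  set v : ℕ → ℕ → ℕ := fun i j => vt (Fin.ofNat (k + 1) i, Fin.ofNat (k + 1) j) with hv
  have hval : ∀ i ≤ k, ((Fin.ofNat (k + 1) i : Fin (k + 1)) : ℕ) = i := by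
    intro i hi
    rw [Fin.val_ofNat]
    exact Nat.mod_eq_of_lt (by omega)
  have hQ' : ∀ p ∈ Q, ∀ i ≤ k, ∀ j ≤ k,
      2 ^ v i j ≤ (P.filter (fun q => cl (2 ^ w) X Y i j q = cl (2 ^ w) X Y i j p)).card ∧
      (P.filter (fun q => cl (2 ^ w) X Y i j q = cl (2 ^ w) X Y i j p)).card < 2 ^ (v i j + 1) ∧
      2 ^ v i j ≤ 2 * (k + 1) ^ 2 * (w * k + 1) ^ ((k + 1) ^ 2) *
        (Q.filter (fun q => cl (2 ^ w) X Y i j q = cl (2 ^ w) X Y i j p)).card := by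
    intro p hp i hi j hj
    have := hQ p hp (Fin.ofNat (k + 1) i, Fin.ofNat (k + 1) j)
    simp only [hval i hi, hval j hj] at this
    exact this
  have hpowl : (w * k + 1) ^ ((k + 1) ^ 2) ≤ 2 ^ ((k + 1) ^ 2 * l) := by
    calc (w * k + 1) ^ ((k + 1) ^ 2) ≤ (2 ^ l) ^ ((k + 1) ^ 2) := Nat.pow_le_pow_left hl _
      _ = 2 ^ ((k + 1) ^ 2 * l) := by rw [← pow_mul, mul_comm]
  have hconst : 2 * (k + 1) ^ 2 * (w * k + 1) ^ ((k + 1) ^ 2) ≤ 2 ^ Δ := by
    have h1 : 2 * (k + 1) ^ 2 ≤ 2 ^ (2 * (k + 1) ^ 2) := by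
      have h2 : 2 * (k + 1) ^ 2 < 2 ^ (2 * (k + 1) ^ 2) := Nat.lt_two_pow_self
      exact h2.le
    calc 2 * (k + 1) ^ 2 * (w * k + 1) ^ ((k + 1) ^ 2) ≤ 2 ^ (2 * (k + 1) ^ 2) *
          2 ^ ((k + 1) ^ 2 * l) := Nat.mul_le_mul h1 hpowl
      _ = 2 ^ Δ := by
          rw [← pow_add, hΔ]
          congr 1
          ring
  have hreg : RegD (2 ^ w) k Δ X Y Q v := by
    refine ⟨?_, ?_, ?_⟩
    · intro p hp i hi j hj
      exact ((hQ' p hp i hi j hj).2.2).trans (Nat.mul_le_mul_right _ hconst)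
    · intro p hp i hi j hj
      exact lt_of_le_of_lt (Finset.card_le_card (Finset.filter_subset_filter _ hQP))
        (hQ' p hp i hi j hj).2.1
    · intro i i' j j' hi hj hi' hj'
      obtain ⟨p, hp⟩ := hQne
      have h1 := (hQ' p hp i (hi.trans hi') j (hj.trans hj')).1
      have h2 := (hQ' p hp i' hi' j' hj').2.1
      have h3 : (P.filter (fun q => cl (2 ^ w) X Y i j q = cl (2 ^ w) X Y i j p)).card ≤
          (P.filter (fun q => cl (2 ^ w) X Y i' j' q = cl (2 ^ w) X Y i' j' p)).card := by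
        apply Finset.card_le_card
        intro q hq
        rw [Finset.mem_filter] at hq ⊢
        exact ⟨hq.1, cl_coarse hi hj hq.2⟩
      have h4 : 2 ^ v i j < 2 ^ (v i' j' + 1) := lt_of_le_of_lt (h1.trans h3) h2
      have := (Nat.pow_lt_pow_iff_right (by norm_num)).mp h4
      omega
  -- the types
  have hOutT : ∀ p ∈ Q, Out p = T := fun p hp => (Finset.mem_filter.mp (hQP hp)).2
  have hQV : Q ⊆ V := hQP.trans hPV
  have htyp : ∀ p ∈ Q, ∀ q ∈ Q, Edge X Y V p q → ∃ t ∈ T, Typ (2 ^ w) X Y t p q := by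
    intro p hp q hq he
    obtain ⟨i, hi, hi1, hi2⟩ := exists_level he.1.ne (hXb p (hQV hp)) (hXb q (hQV hq))
    obtain ⟨j, hj, hj1, hj2⟩ := exists_level he.2.1.ne (hYb p (hQV hp)) (hYb q (hQV hq))
    have ht : Typ (2 ^ w) X Y (i, j) p q := ⟨⟨hi1, hi2⟩, ⟨hj1, hj2⟩⟩
    refine ⟨(i, j), ?_, ht⟩
    rw [← hOutT p hp, hOut, Finset.mem_filter, hR, Finset.mem_product, Finset.mem_range,
      Finset.mem_range]
    exact ⟨⟨hi, hj⟩, q, hQV hq, he, ht⟩
  have hback : ∀ p ∈ Q, ∀ t ∈ T, ∃ q ∈ V, Edge X Y V p q ∧ Typ (2 ^ w) X Y t p q := by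
    intro p hp t ht
    rw [← hOutT p hp, hOut, Finset.mem_filter] at ht
    exact ht.2
  obtain ⟨p0, hp0⟩ := hQne
  have hch : ∀ t ∈ T, ∀ t' ∈ T, t.1 < t'.1 → t'.2 ≤ t.2 := by
    intro t ht t' ht' hlt
    obtain ⟨q, hq, he, hty⟩ := hback p0 hp0 t ht
    obtain ⟨q', hq', he', hty'⟩ := hback p0 hp0 t' ht'
    exact out_chain hY hq hq' he hty he' hty' hlt
  have hTk : ∀ t ∈ T, t.1 ≤ k ∧ t.2 ≤ k := by
    intro t ht
    have := hTR ht
    rw [hR, Finset.mem_product, Finset.mem_range, Finset.mem_range] at this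
    exact ⟨this.1.le, this.2.le⟩
  obtain ⟨I, J, hI, hJ, hIJ, hin, hmem⟩ := enum_chain k T.card T rfl hTk hch
  have hanti : ∀ g < T.card, ∀ p ∈ Q, ∀ q ∈ Q, cl (2 ^ w) X Y (I g) (J g) p =
      cl (2 ^ w) X Y (I g) (J g) q → ¬ (X p < X q ∧ Y p < Y q) := by
    intro g hg p hp q hq hpq
    obtain ⟨q', hq', he, hty⟩ := hback p hp _ (hmem g hg)
    exact no_dom_out he hty (hQV hq) hpq.symm
  have hfinal : ∃ S ⊆ Q, Q.card ≤ 2 ^ (2 ^ B * c + 2 * (2 * (w * k + c) / B)) * S.card ∧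
      ∀ p ∈ S, ∀ q ∈ S, ¬ Edge X Y V p q := by
    rcases Nat.eq_zero_or_pos T.card with h0 | hpos
    · refine ⟨Q, Finset.Subset.refl _, Nat.le_mul_of_pos_left _ (by positivity), ?_⟩
      intro p hp q hq he
      obtain ⟨t, ht, -⟩ := htyp p hp q hq he
      rw [Finset.card_eq_zero] at h0
      rw [h0] at ht
      exact absurd ht (Finset.notMem_empty t)
    · obtain ⟨S, hSQ, hS1, hS2⟩ := indep_of_reg (V := V) hreg ⟨p0, hp0⟩ hpos
        (by rw [← hRc]; exact Finset.card_le_card hTR) hI hJ hIJ hanti hc hB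
      refine ⟨S, hSQ, hS1, ?_⟩
      intro p hp q hq he
      obtain ⟨t, ht, hty⟩ := htyp p (hSQ hp) q (hSQ hq) he
      obtain ⟨g, hg, rfl⟩ := hin t ht
      exact hS2 p hp q hq g hg ⟨he, hty⟩
  obtain ⟨S, hSQ, hS1, hS2⟩ := hfinal
  refine ⟨S, hSQ.trans hQV, ?_, hS2⟩
  calc V.card ≤ 2 ^ (k ^ 2) * P.card := hT
    _ ≤ 2 ^ (k ^ 2) * (2 * (w * k + 1) ^ ((k + 1) ^ 2) * Q.card) := Nat.mul_le_mul_left _ hQc
    _ ≤ 2 ^ (k ^ 2) * (2 * 2 ^ ((k + 1) ^ 2 * l) *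
        (2 ^ (2 ^ B * c + 2 * (2 * (w * k + c) / B)) * S.card)) := by
        apply Nat.mul_le_mul_left
        exact Nat.mul_le_mul (Nat.mul_le_mul_left _ hpowl) hS1
    _ = _ := by
        rw [pow_add 2 (k ^ 2 + 1 + (k + 1) ^ 2 * l), pow_add 2 (k ^ 2 + 1), pow_succ]
        ring

end Pool.Agent.Helper64.RectU
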