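import Mathlib
import Pool.Agent.Helper64.RectU.Main

/-!
From independent sets to colourings, and from real points to ranks (MP_b66d25_co, upper bound).
-/

open Finset

namespace Pool.Agent.Helper64.RectU

/-- removing `t` independent sets -/
theorem extract {α : Type*} [DecidableEq α] (R : α → α → Prop) (F : ℕ) (P : Finset α)
    (h : ∀ V ⊆ P, ∃ S ⊆ V, V.card ≤ F * S.card ∧ ∀ p ∈ S, ∀ q ∈ S, ¬ R p q) :
    ∀ t : ℕ, ∀ V ⊆ P, ∃ V' ⊆ V, ∃ f : α → ℕ, (∀ p ∈ V \ V', f p < t) ∧
      (∀ p ∈ V \ V', ∀ q ∈ V \ V', R p q → f p ≠ f q) ∧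
      t * V'.card + F * V'.card ≤ F * V.card := by
  intro t
  induction t with
  | zero =>
    intro V hV
    refine ⟨V, Finset.Subset.refl _, fun _ => 0, ?_, ?_, by simp⟩
    · intro p hp; simp at hp
    · intro p hp; simp at hp
  | succ t ih =>
    intro V hV
    obtain ⟨V', hV'V, f, hf1, hf2, hf3⟩ := ih V hV
    obtain ⟨S, hSV', hS1, hS2⟩ := h V' (hV'V.trans hV)
    refine ⟨V' \ S, Finset.sdiff_subset.trans hV'V, fun p => if p ∈ S then t else f p, ?_, ?_, ?_⟩
    · intro p hp
      by_cases hpS : p ∈ S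
      · simp only [if_pos hpS]; omega
      · simp only [if_neg hpS]
        rw [Finset.mem_sdiff, Finset.mem_sdiff] at hp
        have : p ∈ V \ V' := Finset.mem_sdiff.mpr ⟨hp.1, fun h' => hp.2 ⟨h', hpS⟩⟩
        have := hf1 p this
        omega
    · have key : ∀ p ∈ V \ (V' \ S), p ∉ S → p ∈ V \ V' := by
        intro p hp hpS
        rw [Finset.mem_sdiff, Finset.mem_sdiff] at hp
        exact Finset.mem_sdiff.mpr ⟨hp.1, fun h' => hp.2 ⟨h', hpS⟩⟩
      intro p hp q hq hR
      by_cases hpS : p ∈ S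
      · by_cases hqS : q ∈ S
        · exact absurd hR (hS2 p hpS q hqS)
        · simp only [if_pos hpS, if_neg hqS]
          have := hf1 q (key q hq hqS)
          omega
      · by_cases hqS : q ∈ S
        · simp only [if_neg hpS, if_pos hqS]
          have := hf1 p (key p hp hpS)
          omega
        · simp only [if_neg hpS, if_neg hqS]
          exact hf2 p (key p hp hpS) q (key q hq hqS) hR
    · have h1 : (V' \ S).card = V'.card - S.card := Finset.card_sdiff_of_subset hSV'
      have h2 : S.card ≤ V'.card := Finset.card_le_card hSV'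
      obtain ⟨d, hd⟩ := Nat.exists_eq_add_of_le h2
      have h3 : (V' \ S).card = d := by omega
      rw [h3]
      have h4 : (t + 1) * d + F * d + F * S.card ≤ t * V'.card + F * V'.card + F * S.card := by
        have h5 : d ≤ F * S.card := by omega
        have h6 : t * d ≤ t * V'.card := Nat.mul_le_mul_left _ (by omega)
        have h7 : F * V'.card = F * S.card + F * d := by rw [hd]; ring
        have h8 : (t + 1) * d = t * d + d := by ring
        omega
      omega

/-- colouring from independent sets -/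
theorem colour {α : Type*} [DecidableEq α] (R : α → α → Prop) (F : ℕ) (hF : 0 < F) (P : Finset α)
    (h : ∀ V ⊆ P, ∃ S ⊆ V, V.card ≤ F * S.card ∧ ∀ p ∈ S, ∀ q ∈ S, ¬ R p q) :
    ∀ m : ℕ, ∀ V ⊆ P, V.card < 2 ^ m → ∃ f : α → ℕ, (∀ p ∈ V, f p < F * m) ∧
      ∀ p ∈ V, ∀ q ∈ V, R p q → f p ≠ f q := by
  intro m
  induction m with
  | zero =>
    intro V hV hc
    have : V = ∅ := by rw [← Finset.card_eq_zero]; omega
    subst this
    exact ⟨fun _ => 0, fun p hp => absurd hp (Finset.notMem_empty p),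
      fun p hp => absurd hp (Finset.notMem_empty p)⟩
  | succ m ih =>
    intro V hV hc
    obtain ⟨V', hV'V, f, hf1, hf2, hf3⟩ := extract R F P h F V hV
    have h1 : F * (2 * V'.card) ≤ F * V.card := by
      calc F * (2 * V'.card) = F * V'.card + F * V'.card := by ring
        _ ≤ _ := hf3
    have h2 := Nat.le_of_mul_le_mul_left h1 hF
    obtain ⟨g, hg1, hg2⟩ := ih V' (hV'V.trans hV) (by rw [pow_succ] at hc; omega)
    have h3 : F * (m + 1) = F + F * m := by ring
    refine ⟨fun p => if p ∈ V' then F + g p else f p, ?_, ?_⟩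
    · intro p hp
      by_cases hpV : p ∈ V'
      · simp only [if_pos hpV]
        have := hg1 p hpV
        omega
      · simp only [if_neg hpV]
        have := hf1 p (Finset.mem_sdiff.mpr ⟨hp, hpV⟩)
        omega
    · intro p hp q hq hR
      by_cases hpV : p ∈ V'
      · by_cases hqV : q ∈ V'
        · simp only [if_pos hpV, if_pos hqV]
          have := hg2 p hpV q hqV hR
          omega
        · simp only [if_pos hpV, if_neg hqV]
          have := hf1 q (Finset.mem_sdiff.mpr ⟨hq, hqV⟩)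
          omega
      · by_cases hqV : q ∈ V'
        · simp only [if_neg hpV, if_pos hqV]
          have := hf1 p (Finset.mem_sdiff.mpr ⟨hp, hpV⟩)
          omega
        · simp only [if_neg hpV, if_neg hqV]
          exact hf2 p (Finset.mem_sdiff.mpr ⟨hp, hpV⟩) q (Finset.mem_sdiff.mpr ⟨hq, hqV⟩) hR

/-- `r` lies strictly between `p` and `q` in both coordinates -/
def Betw {α : Type*} (X Y : α → ℕ) (p q r : α) : Prop :=
  min (X p) (X q) < X r ∧ X r < max (X p) (X q) ∧ min (Y p) (Y q) < Y r ∧ Y r < max (Y p) (Y q)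

theorem two_sided {α : Type*} [DecidableEq α] (w k l B : ℕ) {X Y : α → ℕ} (V : Finset α)
    (hX : Set.InjOn X V) (hY : Set.InjOn Y V) (hXb : ∀ p ∈ V, X p < (2 ^ w) ^ k)
    (hYb : ∀ p ∈ V, Y p < (2 ^ w) ^ k) (hl : w * k + 1 ≤ 2 ^ l) (hB : 0 < B) {Δ c E : ℕ}
    (hΔ : Δ = (k + 1) ^ 2 * (l + 2)) (hc : c = 2 * w + k ^ 2 + Δ + 3 + k ^ 2 * (Δ + 2))
    (hE : E = k ^ 2 + 1 + (k + 1) ^ 2 * l + (2 ^ B * c + 2 * (2 * (w * k + c) / B))) :
    ∃ S ⊆ V, V.card ≤ 2 ^ (2 * E) * S.card ∧ ∀ p ∈ S, ∀ q ∈ S,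
      ¬ (p ≠ q ∧ ∀ r ∈ V, ¬ Betw X Y p q r) := by
  classical
  obtain ⟨S, hSV, hS1, hS2⟩ := main_indep w k l B V hX hY hXb hYb hl hB hΔ hc
  rw [← hE] at hS1
  set M := (2 ^ w) ^ k with hM
  have hMpos : 0 < M := by positivity
  set Y' : α → ℕ := fun p => M - 1 - Y p with hY'
  have hY'inj : Set.InjOn Y' S := by
    intro p hp q hq hpq
    apply hY (hSV hp) (hSV hq)
    have h1 := hYb p (hSV hp)
    have h2 := hYb q (hSV hq)
    simp only [hY'] at hpq
    omega
  obtain ⟨S', hS'S, hS'1, hS'2⟩ := main_indep w k l B S (hX.mono hSV) hY'inj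
    (fun p hp => hXb p (hSV hp)) (fun p _ => by simp only [hY']; omega) hl hB hΔ hc
  rw [← hE] at hS'1
  refine ⟨S', hS'S.trans hSV, ?_, ?_⟩
  · calc V.card ≤ 2 ^ E * S.card := hS1
      _ ≤ 2 ^ E * (2 ^ E * S'.card) := Nat.mul_le_mul_left _ hS'1
      _ = 2 ^ (2 * E) * S'.card := by rw [two_mul, pow_add]; ring
  · have key : ∀ p ∈ S', ∀ q ∈ S', X p < X q → ¬ ∀ r ∈ V, ¬ Betw X Y p q r := by
      intro p hp q hq hlt hno
      have hpV := hSV (hS'S hp)
      have hqV := hSV (hS'S hq)
      have hYne : Y p ≠ Y q := fun h => hlt.ne (congrArg X (hY hpV hqV h))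
      rcases Nat.lt_or_gt_of_ne hYne with hYlt | hYgt
      · apply hS2 p (hS'S hp) q (hS'S hq)
        refine ⟨hlt, hYlt, fun r hr hr' => hno r hr ?_⟩
        refine ⟨?_, ?_, ?_, ?_⟩ <;> omega
      · apply hS'2 p hp q hq
        have h1 := hYb p hpV
        have h2 := hYb q hqV
        refine ⟨hlt, by simp only [hY']; omega, fun r hr hr' => hno r (hSV hr) ?_⟩
        have h3 := hYb r (hSV hr)
        simp only [hY'] at hr'
        refine ⟨?_, ?_, ?_, ?_⟩ <;> omega
    rintro p hp q hq ⟨hne, hno⟩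
    have hXne : X p ≠ X q := fun h => hne (hX (hSV (hS'S hp)) (hSV (hS'S hq)) h)
    rcases Nat.lt_or_gt_of_ne hXne with h | h
    · exact key p hp q hq h hno
    · apply key q hq p hp h
      intro r hr hb
      apply hno r hr
      rw [Betw, min_comm (X p), max_comm (X p), min_comm (Y p), max_comm (Y p)]
      exact hb

/-- rank of `p` in `P` for the linear order induced by `e` -/
noncomputable def rk {α β : Type*} [LinearOrder β] (e : α → β) (P : Finset α) (p : α) : ℕ :=
  (P.filter (fun q => e q < e p)).card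

theorem rk_lt {α β : Type*} [LinearOrder β] (e : α → β) (P : Finset α) {p : α} (hp : p ∈ P) :
    rk e P p < P.card := by
  apply Finset.card_lt_card
  rw [Finset.ssubset_iff_of_subset (Finset.filter_subset _ _)]
  exact ⟨p, hp, fun h => absurd (Finset.mem_filter.mp h).2 (lt_irrefl _)⟩

theorem lt_of_rk_lt {α β : Type*} [LinearOrder β] (e : α → β) (P : Finset α) {p q : α}
    (h : rk e P p < rk e P q) : e p < e q := by
  by_contra hcon
  push Not at hcon
  apply absurd h
  push Not
  apply Finset.card_le_card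
  intro r hr
  rw [Finset.mem_filter] at hr ⊢
  exact ⟨hr.1, lt_of_lt_of_le hr.2 hcon⟩

theorem rk_lt_of_lt {α β : Type*} [LinearOrder β] (e : α → β) (P : Finset α) {p q : α}
    (hp : p ∈ P) (h : e p < e q) : rk e P p < rk e P q := by
  apply Finset.card_lt_card
  rw [Finset.ssubset_iff_of_subset]
  · exact ⟨p, Finset.mem_filter.mpr ⟨hp, h⟩, fun h => absurd (Finset.mem_filter.mp h).2 (lt_irrefl _)⟩
  · intro r hr
    rw [Finset.mem_filter] at hr ⊢
    exact ⟨hr.1, hr.2.trans h⟩

theorem rk_inj {α β : Type*} [LinearOrder β] (e : α → β) (he : Function.Injective e)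
    (P : Finset α) : Set.InjOn (rk e P) P := by
  intro p hp q hq h
  rcases lt_trichotomy (e p) (e q) with h1 | h1 | h1
  · exact absurd h (rk_lt_of_lt e P hp h1).ne
  · exact he h1
  · exact absurd h (rk_lt_of_lt e P hq h1).ne'

/-- coordinates of the plane, made generic -/
noncomputable def eX : ℝ × ℝ → ℝ ×ₗ ℝ := fun p => toLex (p.1, p.2)

/-- coordinates of the plane, made generic -/
noncomputable def eY : ℝ × ℝ → ℝ ×ₗ ℝ := fun p => toLex (p.2, p.1)

theorem eX_inj : Function.Injective eX := by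
  intro p q h
  have := toLex.injective h
  rw [Prod.mk.injEq] at this
  exact Prod.ext this.1 this.2

theorem eY_inj : Function.Injective eY := by
  intro p q h
  have := toLex.injective h
  rw [Prod.mk.injEq] at this
  exact Prod.ext this.2 this.1

theorem fst_le {p q : ℝ × ℝ} (h : eX p < eX q) : p.1 ≤ q.1 := by
  rw [eX, eX, Prod.Lex.toLex_lt_toLex] at h
  rcases h with h | h
  · exact h.le
  · exact h.1.le

theorem snd_le {p q : ℝ × ℝ} (h : eY p < eY q) : p.2 ≤ q.2 := by
  rw [eY, eY, Prod.Lex.toLex_lt_toLex] at h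
  rcases h with h | h
  · exact h.le
  · exact h.1.le

/-- The colouring of the visibility relation of a finite set of points of the plane. -/
theorem plane (w k l B : ℕ) (P : Finset (ℝ × ℝ)) (hP : P.card ≤ (2 ^ w) ^ k)
    (hl : w * k + 1 ≤ 2 ^ l) (hB : 0 < B) {Δ c E : ℕ}
    (hΔ : Δ = (k + 1) ^ 2 * (l + 2)) (hc : c = 2 * w + k ^ 2 + Δ + 3 + k ^ 2 * (Δ + 2))
    (hE : E = k ^ 2 + 1 + (k + 1) ^ 2 * l + (2 ^ B * c + 2 * (2 * (w * k + c) / B))) :
    ∃ f : ℝ × ℝ → ℕ, (∀ p ∈ P, f p < 2 ^ (2 * E + l)) ∧ ∀ p ∈ P, ∀ q ∈ P, p ≠ q →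
      (∀ r ∈ P, min p.1 q.1 ≤ r.1 → r.1 ≤ max p.1 q.1 → min p.2 q.2 ≤ r.2 → r.2 ≤ max p.2 q.2 →
        r = p ∨ r = q) → f p ≠ f q := by
  classical
  set X := rk eX P with hX
  set Y := rk eY P with hY
  have hXi : Set.InjOn X P := rk_inj eX eX_inj P
  have hYi : Set.InjOn Y P := rk_inj eY eY_inj P
  have hXb : ∀ p ∈ P, X p < (2 ^ w) ^ k := fun p hp => lt_of_lt_of_le (rk_lt eX P hp) hP
  have hYb : ∀ p ∈ P, Y p < (2 ^ w) ^ k := fun p hp => lt_of_lt_of_le (rk_lt eY P hp) hP
  obtain ⟨f, hf1, hf2⟩ := colour (fun p q => p ≠ q ∧ ∀ r ∈ P, ¬ Betw X Y p q r) (2 ^ (2 * E))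
    (by positivity) P (by
      intro V hV
      obtain ⟨S, hSV, hS1, hS2⟩ := two_sided w k l B V (hXi.mono hV) (hYi.mono hV)
        (fun p hp => hXb p (hV hp)) (fun p hp => hYb p (hV hp)) hl hB hΔ hc hE
      refine ⟨S, hSV, hS1, ?_⟩
      rintro p hp q hq ⟨hne, hno⟩
      exact hS2 p hp q hq ⟨hne, fun r hr => hno r (hV hr)⟩) (w * k + 1) P (Finset.Subset.refl _)
    (by
      calc P.card ≤ (2 ^ w) ^ k := hP
        _ = 2 ^ (w * k) := by rw [← pow_mul]
        _ < 2 ^ (w * k + 1) := Nat.pow_lt_pow_right (by norm_num) (Nat.lt_succ_self _))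
  refine ⟨f, ?_, ?_⟩
  · intro p hp
    refine lt_of_lt_of_le (hf1 p hp) ?_
    rw [pow_add]
    exact Nat.mul_le_mul_left _ hl
  · intro p hp q hq hne hempty
    apply hf2 p hp q hq
    refine ⟨hne, ?_⟩
    rintro r hr ⟨h1, h2, h3, h4⟩
    have hrp : r ≠ p := by
      rintro rfl
      rcases le_total (X r) (X q) with h | h
      · rw [min_eq_left h] at h1; exact lt_irrefl _ h1
      · rw [max_eq_left h] at h2; exact lt_irrefl _ h2
    have hrq : r ≠ q := by
      rintro rfl
      rcases le_total (X p) (X r) with h | h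
      · rw [max_eq_right h] at h2; exact lt_irrefl _ h2
      · rw [min_eq_right h] at h1; exact lt_irrefl _ h1
    have hres := hempty r hr ?_ ?_ ?_ ?_
    · rcases hres with h | h
      · exact hrp h
      · exact hrq h
    · rcases le_total (X p) (X q) with h | h
      · rw [min_eq_left h] at h1
        exact (min_le_left _ _).trans (fst_le (lt_of_rk_lt eX P h1))
      · rw [min_eq_right h] at h1
        exact (min_le_right _ _).trans (fst_le (lt_of_rk_lt eX P h1))
    · rcases le_total (X p) (X q) with h | h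
      · rw [max_eq_right h] at h2
        exact (fst_le (lt_of_rk_lt eX P h2)).trans (le_max_right _ _)
      · rw [max_eq_left h] at h2
        exact (fst_le (lt_of_rk_lt eX P h2)).trans (le_max_left _ _)
    · rcases le_total (Y p) (Y q) with h | h
      · rw [min_eq_left h] at h3
        exact (min_le_left _ _).trans (snd_le (lt_of_rk_lt eY P h3))
      · rw [min_eq_right h] at h3
        exact (min_le_right _ _).trans (snd_le (lt_of_rk_lt eY P h3))
    · rcases le_total (Y p) (Y q) with h | h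
      · rw [max_eq_right h] at h4
        exact (snd_le (lt_of_rk_lt eY P h4)).trans (le_max_right _ _)
      · rw [max_eq_left h] at h4
        exact (snd_le (lt_of_rk_lt eY P h4)).trans (le_max_left _ _)

end Pool.Agent.Helper64.RectU
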