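import Mathlib
import Pool.Agent.Helper64.RectU.Colour

/-!
Choice of the parameters (MP_b66d25_co, upper bound).
-/

open Finset

namespace Pool.Agent.Helper64.RectU

theorem sq_le_two_pow (t : ℕ) : t ^ 2 ≤ 2 * 2 ^ t := by
  induction t with
  | zero => norm_num
  | succ t ih =>
    rcases Nat.lt_or_ge t 3 with h | h
    · interval_cases t <;> norm_num
    · have : (t + 1) ^ 2 ≤ 2 * t ^ 2 := by nlinarith
      rw [pow_succ 2 t]
      omega

theorem params {L t k w l Δ c E : ℕ} (ht : 0 < t) (hL : 2 ^ (10 * t) ≤ L)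
    (hk : k = 2 ^ (2 * t)) (hw : w = L / k + 1) (hl : l = 10 * t + 12)
    (hΔ : Δ = (k + 1) ^ 2 * (l + 2)) (hc : c = 2 * w + k ^ 2 + Δ + 3 + k ^ 2 * (Δ + 2))
    (hE : E = k ^ 2 + 1 + (k + 1) ^ 2 * l + (2 ^ t * c + 2 * (2 * (w * k + c) / t))) :
    t * (2 * E + l) ≤ 4400 * L := by
  set a := 2 ^ t with ha
  have ha1 : 1 ≤ a := Nat.one_le_two_pow
  have hta : t ≤ a := (Nat.lt_two_pow_self).le
  have hka : k = a ^ 2 := by rw [hk, ha, ← pow_mul, mul_comm]
  have hLa : a ^ 10 ≤ L := by rw [ha, ← pow_mul, mul_comm]; exact hL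
  have hkpos : 0 < k := by rw [hk]; positivity
  have hwk : w * k ≤ L + k := by
    rw [hw, add_mul, one_mul]
    exact Nat.add_le_add_right (Nat.div_mul_le_self _ _) _
  have hpow : ∀ m ≤ 10, a ^ m ≤ L := fun m hm => (Nat.pow_le_pow_right ha1 hm).trans hLa
  have hkL : k ≤ L := by rw [hka]; exact hpow 2 (by norm_num)
  have ht2 : t ^ 2 ≤ 2 * a := sq_le_two_pow t
  have htl : t * (l + 2) ≤ 48 * a := by
    rw [hl]
    nlinarith
  have hk1 : (k + 1) ^ 2 ≤ 4 * a ^ 4 := by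
    have h1 : k + 1 ≤ 2 * a ^ 2 := by
      have : 1 ≤ a ^ 2 := Nat.one_le_pow _ _ ha1
      omega
    calc (k + 1) ^ 2 ≤ (2 * a ^ 2) ^ 2 := Nat.pow_le_pow_left h1 2
      _ = 4 * a ^ 4 := by ring
  have htΔ : t * Δ ≤ 192 * a ^ 5 := by
    calc t * Δ = (k + 1) ^ 2 * (t * (l + 2)) := by rw [hΔ]; ring
      _ ≤ 4 * a ^ 4 * (48 * a) := Nat.mul_le_mul hk1 htl
      _ = 192 * a ^ 5 := by ring
  have hk2 : k ^ 2 = a ^ 4 := by rw [hka]; ring
  have p59 : a ^ 5 ≤ a ^ 9 := Nat.pow_le_pow_right ha1 (by norm_num)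
  have p19 : a ≤ a ^ 9 := Nat.le_self_pow (by norm_num) a
  have htc : t * c ≤ 2 * (t * w) + 390 * a ^ 9 := by
    have h1 : t * c = 2 * (t * w) + t * a ^ 4 + t * Δ + 3 * t + a ^ 4 * (t * Δ + 2 * t) := by
      rw [hc, hk2]; ring
    have h2 : t * a ^ 4 ≤ a ^ 5 := by
      calc t * a ^ 4 ≤ a * a ^ 4 := Nat.mul_le_mul_right _ hta
        _ = a ^ 5 := by ring
    have h3 : a ^ 4 * (t * Δ + 2 * t) ≤ 194 * a ^ 9 := by
      calc a ^ 4 * (t * Δ + 2 * t) ≤ a ^ 4 * (192 * a ^ 5 + 2 * a ^ 5) := by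
            apply Nat.mul_le_mul_left
            have : t ≤ a ^ 5 := hta.trans (Nat.le_self_pow (by norm_num) a)
            omega
        _ = 194 * a ^ 9 := by ring
    rw [h1]
    omega
  have htac : t * a * c ≤ 394 * L := by
    have h1 : t * a * c = a * (t * c) := by ring
    have h2 : a * (t * w) ≤ w * k := by
      calc a * (t * w) ≤ a * (a * w) := Nat.mul_le_mul_left _ (Nat.mul_le_mul_right _ hta)
        _ = w * k := by rw [hka]; ring
    have h3 : a * (2 * (t * w) + 390 * a ^ 9) = 2 * (a * (t * w)) + 390 * a ^ 10 := by ring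
    have h4 := Nat.mul_le_mul_left a htc
    rw [h3] at h4
    rw [h1]
    omega
  have hcL : c ≤ 394 * L := by
    have h1 : 1 * c ≤ t * a * c := Nat.mul_le_mul_right _ (Nat.mul_pos ht ha1)
    omega
  have hdiv : t * (2 * (2 * (w * k + c) / t)) ≤ 4 * (w * k + c) := by
    have : t * (2 * (w * k + c) / t) ≤ 2 * (w * k + c) := Nat.mul_div_le _ _
    calc t * (2 * (2 * (w * k + c) / t)) = 2 * (t * (2 * (w * k + c) / t)) := by ring
      _ ≤ 2 * (2 * (w * k + c)) := Nat.mul_le_mul_left _ this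
      _ = _ := by ring
  have htE : t * E ≤ 2172 * L := by
    have h1 : t * E = t * a ^ 4 + t + (k + 1) ^ 2 * (t * l) + t * a * c +
        t * (2 * (2 * (w * k + c) / t)) := by
      rw [hE, hk2]; ring
    have h2 : t * a ^ 4 ≤ a ^ 5 := by
      calc t * a ^ 4 ≤ a * a ^ 4 := Nat.mul_le_mul_right _ hta
        _ = a ^ 5 := by ring
    have h3 : (k + 1) ^ 2 * (t * l) ≤ 192 * a ^ 5 := by
      calc (k + 1) ^ 2 * (t * l) ≤ 4 * a ^ 4 * (48 * a) := by
            apply Nat.mul_le_mul hk1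
            have : t * l ≤ t * (l + 2) := Nat.mul_le_mul_left _ (by omega)
            omega
        _ = 192 * a ^ 5 := by ring
    have h4 := hpow 5 (by norm_num)
    have h5 : t ≤ L := hta.trans (by simpa using hpow 1 (by norm_num))
    rw [h1]
    omega
  have h6 : t * l ≤ 48 * L := by
    have : t * l ≤ t * (l + 2) := Nat.mul_le_mul_left _ (by omega)
    have h7 : a ≤ L := by simpa using hpow 1 (by norm_num)
    omega
  calc t * (2 * E + l) = 2 * (t * E) + t * l := by ring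
    _ ≤ 4400 * L := by omega

end Pool.Agent.Helper64.RectU
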