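import Mathlib
import Pool.Agent.Helper64.RectU.Params

/-!
An upper bound for the chromatic number of Delaunay graphs of point sets in the plane with respect to
axis-parallel rectangles which is smaller than every positive power of `n`:
`d(n) ≤ exp (C log n / log log n)`.

Idea. Write the ranks of the coordinates in base `2 ^ w` with `k` digits. A visible pair has a type
`(i, j)`: the first digits where the two abscissas and the two ordinates differ. Pass to the points
whose visible pairs to the upper right have a given set of types; this set is a chain of at most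
`2 k` types, and the cells of these scales then contain no two comparable points. Make all cell sizes
regular. Inside a cell of such a scale the cells of a coarser-finer scale cut a descending chain into
intervals, which gives a law of stack type for the cell sizes. Hence the chain of types can be cut
at the deep valleys of the profile of cell sizes into few groups such that every point sees few
cells of the largest scale of the group through pairs with types in the group; a random choice of
such cells kills these pairs. The depth of the valleys is chosen among many dyadic values.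
-/

namespace Pool.Agent.Helper64.RectU.SubPolynomialOld

open Pool.Agent.Helper64.RectU

/-- The Delaunay graph of a finite set `P` of points of the plane with respect to axis-parallel
rectangles: two distinct points are adjacent if some rectangle `[a, b] × [c, d]` meets `P` in exactly
these two points. -/
def delaunay (P : Finset (ℝ × ℝ)) : SimpleGraph P where
  Adj p q := p ≠ q ∧ ∃ a b c d : ℝ, a ≤ b ∧ c ≤ d ∧
    (P : Set (ℝ × ℝ)) ∩ (Set.Icc a b ×ˢ Set.Icc c d) = {(p : ℝ × ℝ), (q : ℝ × ℝ)}
  symm := ⟨by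
    rintro p q ⟨h, a, b, c, d, h1, h2, h3⟩
    exact ⟨h.symm, a, b, c, d, h1, h2, by rw [h3, Set.pair_comm]⟩⟩
  loopless := ⟨fun _ h => h.1 rfl⟩

/-- `d(n)`: the least integer such that the Delaunay graphs of all sets of `n` points of the plane
are `d(n)`-colourable. -/
noncomputable def dnum (n : ℕ) : ℕ :=
  sInf {D : ℕ | ∀ P : Finset (ℝ × ℝ), P.card = n → (delaunay P).Colorable D}

theorem dnum_le_of {n D : ℕ} (h : ∀ P : Finset (ℝ × ℝ), P.card = n →
    (delaunay P).Colorable D) : dnum n ≤ D := Nat.sInf_le h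

theorem dnum_le_self (n : ℕ) : dnum n ≤ n := by
  apply dnum_le_of
  intro P hP
  have h := (delaunay P).colorable_of_fintype
  rw [Fintype.card_coe, hP] at h
  exact h

theorem dnum_le_main {n w k l B Δ c E : ℕ} (hP : n ≤ (2 ^ w) ^ k)
    (hl : w * k + 1 ≤ 2 ^ l) (hB : 0 < B)
    (hΔ : Δ = (k + 1) ^ 2 * (l + 2)) (hc : c = 2 * w + k ^ 2 + Δ + 3 + k ^ 2 * (Δ + 2))
    (hE : E = k ^ 2 + 1 + (k + 1) ^ 2 * l + (2 ^ B * c + 2 * (2 * (w * k + c) / B))) :
    dnum n ≤ 2 ^ (2 * E + l) := by
  apply dnum_le_of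
  intro P hPn
  obtain ⟨f, hf1, hf2⟩ := plane w k l B P (by rw [hPn]; exact hP) hl hB hΔ hc hE
  refine ⟨SimpleGraph.Coloring.mk (fun p => (⟨f p, hf1 p p.2⟩ : Fin (2 ^ (2 * E + l)))) ?_⟩
  rintro ⟨p, hp⟩ ⟨q, hq⟩ ⟨hne, a, b, c', d, hab, hcd, hset⟩ heq
  have hfe : f p = f q := by
    have := congrArg Fin.val heq
    exact this
  refine hf2 p hp q hq (fun h => hne (Subtype.ext h)) ?_ hfe
  intro r hr h1 h2 h3 h4
  have hpm : p ∈ (P : Set (ℝ × ℝ)) ∩ (Set.Icc a b ×ˢ Set.Icc c' d) := by
    rw [hset]; exact Or.inl rfl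
  have hqm : q ∈ (P : Set (ℝ × ℝ)) ∩ (Set.Icc a b ×ˢ Set.Icc c' d) := by
    rw [hset]; exact Or.inr rfl
  have hrm : r ∈ (P : Set (ℝ × ℝ)) ∩ (Set.Icc a b ×ˢ Set.Icc c' d) := by
    refine ⟨hr, ?_, ?_⟩
    · refine ⟨?_, ?_⟩
      · exact le_trans (le_min hpm.2.1.1 hqm.2.1.1) h1
      · exact le_trans h2 (max_le hpm.2.1.2 hqm.2.1.2)
    · refine ⟨?_, ?_⟩
      · exact le_trans (le_min hpm.2.2.1 hqm.2.2.1) h3
      · exact le_trans h4 (max_le hpm.2.2.2 hqm.2.2.2)
  rw [hset] at hrm
  exact hrm

theorem final_calc {t F L : ℕ} {x y : ℝ} (ht : 0 < t) (h : t * F ≤ 4400 * L)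
    (hy2 : y ≤ (10 * (t : ℝ) + 10) * Real.log 2) (hx : (L : ℝ) * Real.log 2 ≤ x) :
    (F : ℝ) * Real.log 2 * y ≤ 61600 * x := by
  have hlog2 : Real.log 2 < 0.6931471808 := Real.log_two_lt_d9
  have hlog2' : 0 < Real.log 2 := Real.log_pos (by norm_num)
  have h3 : (t : ℝ) * (F : ℝ) ≤ 4400 * (L : ℝ) := by exact_mod_cast h
  have h5 : (1 : ℝ) ≤ t := by exact_mod_cast ht
  have h4 : y ≤ 14 * (t : ℝ) := by
    have h6 : (10 * (t : ℝ) + 10) * Real.log 2 ≤ (20 * (t : ℝ)) * 0.7 := by
      apply mul_le_mul (by linarith) (by linarith) hlog2'.le (by linarith)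
    linarith
  have h6 : (0 : ℝ) ≤ (F : ℝ) * Real.log 2 := mul_nonneg (Nat.cast_nonneg _) hlog2'.le
  calc (F : ℝ) * Real.log 2 * y ≤ (F : ℝ) * Real.log 2 * (14 * (t : ℝ)) :=
        mul_le_mul_of_nonneg_left h4 h6
    _ = 14 * Real.log 2 * ((t : ℝ) * (F : ℝ)) := by ring
    _ ≤ 14 * Real.log 2 * (4400 * (L : ℝ)) :=
        mul_le_mul_of_nonneg_left h3 (by linarith)
    _ = 61600 * ((L : ℝ) * Real.log 2) := by ring
    _ ≤ 61600 * x := mul_le_mul_of_nonneg_left hx (by norm_num)

/-- There is a constant `C` with `d(n) ≤ exp (C log n / log log n)` for all `n ≥ 3`. -/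
theorem result : ∃ C : ℝ, ∀ n : ℕ, 3 ≤ n →
    (dnum n : ℝ) ≤ Real.exp (C * Real.log n / Real.log (Real.log n)) := by
  refine ⟨61600, ?_⟩
  intro n hn
  have hnpos : (0 : ℝ) < n := by exact_mod_cast (by omega : 0 < n)
  have hlog3 : 1 < Real.log n := by
    have h1 : Real.exp 1 < 3 := lt_trans Real.exp_one_lt_d9 (by norm_num)
    have h2 : Real.exp 1 < n := lt_of_lt_of_le h1 (by exact_mod_cast hn)
    exact (Real.lt_log_iff_exp_lt hnpos).mpr h2
  have hll : 0 < Real.log (Real.log n) := Real.log_pos hlog3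
  have hlog2 : Real.log 2 < 0.6931471808 := Real.log_two_lt_d9
  have hlog2' : 0 < Real.log 2 := Real.log_pos (by norm_num)
  set L := Nat.log 2 n with hL
  have hL1 : 2 ^ L ≤ n := Nat.pow_log_le_self 2 (by omega)
  have hL2 : n < 2 ^ (L + 1) := Nat.lt_pow_succ_log_self (by norm_num) n
  have hLpos : 1 ≤ L := by
    by_contra h
    have : L = 0 := by omega
    rw [this] at hL2
    omega
  have hlogn1 : (L : ℝ) * Real.log 2 ≤ Real.log n := by
    rw [← Real.log_pow]
    apply Real.log_le_log (by positivity)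
    exact_mod_cast hL1
  have hlogn2 : Real.log n ≤ ((L : ℝ) + 1) * Real.log 2 := by
    have : ((L : ℝ) + 1) * Real.log 2 = Real.log ((2 : ℝ) ^ (L + 1)) := by
      rw [Real.log_pow]; push_cast; ring
    rw [this]
    apply Real.log_le_log hnpos
    exact_mod_cast hL2.le
  set t := Nat.log 2 L / 10 with ht
  have hlt : L < 2 ^ (10 * t + 10) := by
    apply Nat.lt_pow_of_log_lt (by norm_num)
    omega
  have hllle : Real.log (Real.log n) ≤ (10 * (t : ℝ) + 10) * Real.log 2 := by
    have h1 : Real.log n ≤ (2 : ℝ) ^ (10 * t + 10) := by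
      have h2 : (L : ℝ) + 1 ≤ (2 : ℝ) ^ (10 * t + 10) := by exact_mod_cast hlt
      calc Real.log n ≤ ((L : ℝ) + 1) * Real.log 2 := hlogn2
        _ ≤ ((L : ℝ) + 1) * 1 := by
            apply mul_le_mul_of_nonneg_left (by linarith) (by positivity)
        _ ≤ _ := by linarith
    calc Real.log (Real.log n) ≤ Real.log ((2 : ℝ) ^ (10 * t + 10)) :=
          Real.log_le_log (by linarith) h1
      _ = (10 * (t : ℝ) + 10) * Real.log 2 := by rw [Real.log_pow]; push_cast; ring
  rcases Nat.eq_zero_or_pos t with ht0 | htpos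
  · -- small `n`
    have h1 : (dnum n : ℝ) ≤ n := by exact_mod_cast dnum_le_self n
    refine h1.trans ?_
    rw [← Real.log_le_iff_le_exp hnpos, le_div_iff₀ hll]
    rw [ht0] at hllle
    have h2 : Real.log (Real.log n) ≤ 61600 := by
      refine hllle.trans ?_
      norm_num
      nlinarith
    nlinarith
  · have hLt : 2 ^ (10 * t) ≤ L := by
      calc 2 ^ (10 * t) ≤ 2 ^ Nat.log 2 L := Nat.pow_le_pow_right (by norm_num) (by omega)
        _ ≤ L := Nat.pow_log_le_self 2 (by omega)
    set k := 2 ^ (2 * t) with hk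
    set w := L / k + 1 with hw
    set l := 10 * t + 12 with hl
    set Δ := (k + 1) ^ 2 * (l + 2) with hΔ
    set c := 2 * w + k ^ 2 + Δ + 3 + k ^ 2 * (Δ + 2) with hc
    set E := k ^ 2 + 1 + (k + 1) ^ 2 * l + (2 ^ t * c + 2 * (2 * (w * k + c) / t)) with hE
    have hkpos : 0 < k := by positivity
    have hwk1 : L + 1 ≤ w * k := by
      have h1 := Nat.div_add_mod L k
      have h2 := Nat.mod_lt L hkpos
      have h3 : w * k = k * (L / k) + k := by rw [hw]; ring
      omega
    have hwk2 : w * k ≤ L + k := by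
      have h1 := Nat.div_mul_le_self L k
      have h3 : w * k = L / k * k + k := by rw [hw]; ring
      omega
    have hkle : k ≤ 2 ^ (10 * t + 10) := Nat.pow_le_pow_right (by norm_num) (by omega)
    have hP : n ≤ (2 ^ w) ^ k := by
      rw [← pow_mul]
      exact hL2.le.trans (Nat.pow_le_pow_right (by norm_num) hwk1)
    have hl1 : w * k + 1 ≤ 2 ^ l := by
      have h1 : (2 : ℕ) ^ l = 4 * 2 ^ (10 * t + 10) := by
        rw [hl]
        have : 10 * t + 12 = (10 * t + 10) + 2 := by ring
        rw [this, pow_add _ _ 2]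
        ring
      have h2 : 1 ≤ 2 ^ (10 * t + 10) := Nat.one_le_two_pow
      omega
    have hmain := dnum_le_main hP hl1 htpos hΔ hc hE
    have hpar := params htpos hLt hk hw hl hΔ hc hE
    have htr : (0 : ℝ) < t := by exact_mod_cast htpos
    have h1 : (dnum n : ℝ) ≤ (2 : ℝ) ^ (2 * E + l) := by exact_mod_cast hmain
    refine h1.trans ?_
    have h2 : (2 : ℝ) ^ (2 * E + l) = Real.exp ((2 * E + l : ℕ) * Real.log 2) := by
      rw [Real.exp_nat_mul, Real.exp_log (by norm_num)]
    rw [h2]
    apply Real.exp_le_exp.mpr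
    rw [le_div_iff₀ hll]
    exact final_calc htpos hpar hllle hlogn1

end Pool.Agent.Helper64.RectU.SubPolynomialOld
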